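import Mathlib

set_option autoImplicit false

namespace Pool.TenA

open Finset

/-- `p` is a probability law on the finite type `G`. -/
structure IsLaw {G : Type*} [Fintype G] (p : G → ℝ) : Prop where
  nonneg : ∀ x, 0 ≤ p x
  sum_one : ∑ x, p x = 1

/-- Gibbs' inequality. -/
theorem gibbs {ι : Type*} [Fintype ι] {p q : ι → ℝ} (hp : ∀ x, 0 ≤ p x) (hq : ∀ x, 0 ≤ q x)
    (hpq : ∑ x, q x ≤ ∑ x, p x) (hac : ∀ x, q x = 0 → p x = 0) :
    ∑ x, p x * Real.log (q x) ≤ ∑ x, p x * Real.log (p x) := by
  have key : ∀ x, p x * Real.log (q x) - p x * Real.log (p x) ≤ q x - p x := by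
    intro x
    rcases eq_or_lt_of_le (hp x) with h | h
    · rw [← h]; simpa using hq x
    · have hqx : 0 < q x := lt_of_le_of_ne (hq x) (fun h0 => by
        have := hac x h0.symm; linarith)
      have h1 : Real.log (q x) - Real.log (p x) ≤ q x / p x - 1 := by
        rw [← Real.log_div hqx.ne' h.ne']
        exact Real.log_le_sub_one_of_pos (div_pos hqx h)
      have h2 := mul_le_mul_of_nonneg_left h1 h.le
      have h3 : p x * (q x / p x - 1) = q x - p x := by field_simp
      linarith [h2, h3, mul_sub (p x) (Real.log (q x)) (Real.log (p x))]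
  have h := Finset.sum_le_sum (fun x (_ : x ∈ Finset.univ) => key x)
  rw [Finset.sum_sub_distrib, Finset.sum_sub_distrib] at h
  linarith

/-- If a weighted average is at most `B`, then some term of positive weight is at most `B`. -/
theorem exists_le_avg {ι : Type*} [Fintype ι] {w f : ι → ℝ} {B : ℝ} (hw : ∀ i, 0 ≤ w i)
    (h1 : ∑ i, w i = 1) (h : ∑ i, w i * f i ≤ B) : ∃ i, 0 < w i ∧ f i ≤ B := by
  by_contra hcon
  push Not at hcon
  have h2 : ∀ i, w i * B ≤ w i * f i := by
    intro i
    rcases eq_or_lt_of_le (hw i) with h0 | h0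
    · rw [← h0]; simp
    · exact mul_le_mul_of_nonneg_left (hcon i h0).le h0.le
  have h3 : ∃ i, 0 < w i := by
    by_contra h4
    push Not at h4
    have : ∑ i, w i ≤ 0 := Finset.sum_nonpos (fun i _ => h4 i)
    linarith
  obtain ⟨i, hi⟩ := h3
  have h5 : ∑ i, w i * B < ∑ i, w i * f i :=
    Finset.sum_lt_sum (fun j _ => h2 j) ⟨i, Finset.mem_univ i, mul_lt_mul_of_pos_left (hcon i hi) hi⟩
  rw [← Finset.sum_mul, h1] at h5
  linarith

variable {G : Type*} [Fintype G] [AddCommGroup G]

/-- convolution -/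
noncomputable def cv (p q : G → ℝ) : G → ℝ := fun z => ∑ x, p x * q (z - x)

/-- autocorrelation: law of the difference of two independent variables of law `p` -/
noncomputable def ac (p : G → ℝ) : G → ℝ := fun t => ∑ s, p s * p (s - t)

/-- relative entropy with respect to the uniform law -/
noncomputable def De (p : G → ℝ) : ℝ := ∑ x, p x * Real.log ((Fintype.card G : ℝ) * p x)

/-- reflection -/
def rf (p : G → ℝ) : G → ℝ := fun x => p (-x)

theorem card_pos' : (0 : ℝ) < (Fintype.card G : ℝ) := by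
  exact_mod_cast Fintype.card_pos

theorem sum_sub_left (g : G → ℝ) (z : G) : ∑ x, g (z - x) = ∑ x, g x :=
  Fintype.sum_equiv (Equiv.subLeft z) _ _ (fun x => by simp)

theorem sum_sub_right (g : G → ℝ) (z : G) : ∑ x, g (x - z) = ∑ x, g x :=
  Fintype.sum_equiv (Equiv.subRight z) _ _ (fun x => by simp)

theorem sum_add_right (g : G → ℝ) (z : G) : ∑ x, g (x + z) = ∑ x, g x :=
  Fintype.sum_equiv (Equiv.addRight z) _ _ (fun x => by simp)

theorem sum_add_left (g : G → ℝ) (z : G) : ∑ x, g (z + x) = ∑ x, g x :=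
  Fintype.sum_equiv (Equiv.addLeft z) _ _ (fun x => by simp)

theorem IsLaw.rf {p : G → ℝ} (hp : IsLaw p) : IsLaw (rf p) :=
  ⟨fun x => hp.nonneg _, by
    have := sum_sub_left p (0 : G)
    simp only [zero_sub] at this
    rw [← hp.sum_one, ← this]; rfl⟩

theorem cv_comm (p q : G → ℝ) : cv p q = cv q p := by
  funext z
  unfold cv
  rw [← sum_sub_left (fun x => q x * p (z - x)) z]
  refine Finset.sum_congr rfl (fun x _ => ?_)
  rw [sub_sub_cancel, mul_comm]

theorem cv_assoc (p q r : G → ℝ) : cv (cv p q) r = cv p (cv q r) := by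
  funext z
  unfold cv
  have h1 : ∀ x, (∑ y, p y * q (x - y)) * r (z - x) = ∑ y, p y * (q (x - y) * r (z - x)) := by
    intro x; rw [Finset.sum_mul]; exact Finset.sum_congr rfl (fun y _ => by ring)
  simp_rw [h1]
  rw [Finset.sum_comm]
  refine Finset.sum_congr rfl (fun y _ => ?_)
  rw [← Finset.mul_sum]
  congr 1
  rw [← sum_sub_right (fun x => q x * r (z - y - x)) y]
  refine Finset.sum_congr rfl (fun x _ => ?_)
  congr 2; abel

theorem ac_eq (p : G → ℝ) : ac p = cv p (rf p) := by
  funext t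
  unfold ac cv rf
  refine Finset.sum_congr rfl (fun s _ => ?_)
  rw [neg_sub]

theorem IsLaw.cv {p q : G → ℝ} (hp : IsLaw p) (hq : IsLaw q) : IsLaw (cv p q) := by
  refine ⟨fun z => Finset.sum_nonneg (fun x _ => mul_nonneg (hp.nonneg _) (hq.nonneg _)), ?_⟩
  unfold TenA.cv
  rw [Finset.sum_comm]
  simp_rw [← Finset.mul_sum, sum_sub_right q, hq.sum_one, mul_one]
  exact hp.sum_one

theorem IsLaw.ac {p : G → ℝ} (hp : IsLaw p) : IsLaw (ac p) := by
  rw [ac_eq]; exact hp.cv hp.rf

/-- pointwise bound of the density -/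
def Bd (p : G → ℝ) (M : ℝ) : Prop := ∀ x, (Fintype.card G : ℝ) * p x ≤ M

theorem Bd.cv {p q : G → ℝ} {M : ℝ} (hp : IsLaw p) (hq : Bd q M) : Bd (cv p q) M := by
  intro z
  unfold TenA.cv
  rw [Finset.mul_sum]
  calc ∑ x, (Fintype.card G : ℝ) * (p x * q (z - x)) = ∑ x, p x * ((Fintype.card G : ℝ) * q (z - x)) :=
        Finset.sum_congr rfl (fun x _ => by ring)
    _ ≤ ∑ x, p x * M := Finset.sum_le_sum (fun x _ => mul_le_mul_of_nonneg_left (hq _) (hp.nonneg _))
    _ = M := by rw [← Finset.sum_mul, hp.sum_one, one_mul]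

theorem Bd.cv_left {p q : G → ℝ} {M : ℝ} (hp : Bd p M) (hq : IsLaw q) : Bd (TenA.cv p q) M := by
  rw [cv_comm]; exact Bd.cv hq hp

theorem De_eq {p : G → ℝ} (hp : IsLaw p) :
    De p = Real.log (Fintype.card G) + ∑ x, p x * Real.log (p x) := by
  unfold De
  have h : ∀ x, p x * Real.log ((Fintype.card G : ℝ) * p x)
      = p x * Real.log (Fintype.card G) + p x * Real.log (p x) := by
    intro x
    rcases eq_or_ne (p x) 0 with h0 | h0
    · simp [h0]
    · rw [Real.log_mul (ne_of_gt card_pos') h0]; ring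
  rw [Finset.sum_congr rfl (fun x _ => h x), Finset.sum_add_distrib, ← Finset.sum_mul, hp.sum_one,
    one_mul]

theorem De_nonneg {p : G → ℝ} (hp : IsLaw p) : 0 ≤ De p := by
  rw [De_eq hp]
  have h := gibbs (q := fun _ : G => (1 : ℝ) / Fintype.card G) hp.nonneg
    (fun x => by positivity) (by
      rw [hp.sum_one, Finset.sum_const, Finset.card_univ, nsmul_eq_mul]
      rw [mul_one_div_cancel (ne_of_gt card_pos')]) (fun x hx => by
      exfalso
      have : (0 : ℝ) < 1 / Fintype.card G := by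
        have := card_pos' (G := G); positivity
      linarith)
  rw [← Finset.sum_mul, hp.sum_one, one_mul, one_div, Real.log_inv] at h
  linarith

theorem De_le {p : G → ℝ} (hp : IsLaw p) {b : ℝ} (hb : Bd p (Real.exp b)) : De p ≤ b := by
  unfold De
  calc ∑ x, p x * Real.log ((Fintype.card G : ℝ) * p x) ≤ ∑ x, p x * b := by
        refine Finset.sum_le_sum (fun x _ => ?_)
        rcases eq_or_lt_of_le (hp.nonneg x) with h0 | h0
        · rw [← h0]; simp
        · refine mul_le_mul_of_nonneg_left ?_ h0.le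
          rw [Real.log_le_iff_le_exp (mul_pos card_pos' h0)]
          exact hb x
    _ = b := by rw [← Finset.sum_mul, hp.sum_one, one_mul]

theorem De_cv_le {p q : G → ℝ} (hp : IsLaw p) (hq : IsLaw q) : De (cv p q) ≤ De p := by
  rw [cv_comm]
  unfold De
  have hconv := Real.convexOn_mul_log
  have key : ∀ z, cv q p z * Real.log ((Fintype.card G : ℝ) * cv q p z)
      ≤ ∑ x, q x * (p (z - x) * Real.log ((Fintype.card G : ℝ) * p (z - x))) := by
    intro z
    have h := hconv.map_sum_le (t := Finset.univ) (w := q)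
      (p := fun x => (Fintype.card G : ℝ) * p (z - x)) (fun x _ => hq.nonneg x) hq.sum_one
      (fun x _ => mul_nonneg (card_pos').le (hp.nonneg _))
    simp only [smul_eq_mul] at h
    have e1 : ∑ x, q x * ((Fintype.card G : ℝ) * p (z - x)) = (Fintype.card G : ℝ) * cv q p z := by
      unfold cv; rw [Finset.mul_sum]; exact Finset.sum_congr rfl (fun x _ => by ring)
    rw [e1] at h
    have e2 : ∑ x, q x * ((Fintype.card G : ℝ) * p (z - x) * Real.log ((Fintype.card G : ℝ) * p (z - x)))
        = (Fintype.card G : ℝ) * ∑ x, q x * (p (z - x) * Real.log ((Fintype.card G : ℝ) * p (z - x))) := by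
      rw [Finset.mul_sum]; exact Finset.sum_congr rfl (fun x _ => by ring)
    rw [e2, mul_assoc] at h
    exact le_of_mul_le_mul_left h card_pos'
  refine (Finset.sum_le_sum (fun z _ => key z)).trans (le_of_eq ?_)
  rw [Finset.sum_comm]
  simp_rw [← Finset.mul_sum]
  have h2 : ∀ x, ∑ z, p (z - x) * Real.log ((Fintype.card G : ℝ) * p (z - x))
      = ∑ z, p z * Real.log ((Fintype.card G : ℝ) * p z) := fun x =>
    sum_sub_right (fun z => p z * Real.log ((Fintype.card G : ℝ) * p z)) x
  simp_rw [h2]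
  rw [← Finset.sum_mul, hq.sum_one, one_mul]

end Pool.TenA
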