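import Mathlib
import Pool.Agent.TenA.Law

set_option autoImplicit false

namespace Pool.TenA

open Finset

variable {G : Type*} [Fintype G] [AddCommGroup G] {m : ℕ}

omit [AddCommGroup G] in
theorem sum_pi_prod (g : Fin m → G → ℝ) :
    ∑ y : Fin m → G, ∏ j, g j (y j) = ∏ j, ∑ x, g j x := by
  classical
  rw [Finset.prod_univ_sum, Fintype.piFinset_univ]

omit [AddCommGroup G] in
/-- sum over the tuples of a product times a function of one coordinate -/
theorem sum_pi_single (p : Fin m → G → ℝ) (h1 : ∀ j, ∑ x, p j x = 1) (i : Fin m) (g : G → ℝ) :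
    ∑ y : Fin m → G, (∏ j, p j (y j)) * g (y i) = ∑ x, p i x * g x := by
  classical
  have h : ∀ y : Fin m → G, (∏ j, p j (y j)) * g (y i)
      = ∏ j, (fun j x => if j = i then p j x * g x else p j x) j (y j) := by
    intro y
    have e1 : (∏ j, p j (y j)) = p i (y i) * ∏ j ∈ Finset.univ.erase i, p j (y j) :=
      (Finset.mul_prod_erase _ _ (Finset.mem_univ i)).symm
    have e2 : (∏ j, (fun j x => if j = i then p j x * g x else p j x) j (y j))
        = (p i (y i) * g (y i)) * ∏ j ∈ Finset.univ.erase i, p j (y j) := by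
      rw [← Finset.mul_prod_erase _ _ (Finset.mem_univ i)]
      congr 1
      · simp
      · refine Finset.prod_congr rfl (fun j hj => ?_)
        simp [Finset.ne_of_mem_erase hj]
    rw [e1, e2]; ring
  rw [Finset.sum_congr rfl (fun y _ => h y),
    sum_pi_prod (fun j x => if j = i then p j x * g x else p j x),
    ← Finset.mul_prod_erase _ _ (Finset.mem_univ i)]
  have e3 : ∏ j ∈ Finset.univ.erase i, ∑ x, (if j = i then p j x * g x else p j x) = 1 := by
    refine Finset.prod_eq_one (fun j hj => ?_)
    simp [Finset.ne_of_mem_erase hj, h1 j]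
  simp only at e3 ⊢
  rw [e3, mul_one]
  simp

/-- joint law of the translate `s` and the shifted samples `y` -/
noncomputable def jt (X S : G → ℝ) (s : G) (y : Fin m → G) : ℝ := S s * ∏ j, X (y j - s)

/-- law of the shifted samples -/
noncomputable def W (X S : G → ℝ) (y : Fin m → G) : ℝ := ∑ s, jt X S s y

/-- law of the translate given the shifted samples -/
noncomputable def nu (X S : G → ℝ) (y : Fin m → G) (s : G) : ℝ := jt X S s y / W X S y

theorem jt_nonneg {X S : G → ℝ} (hX : IsLaw X) (hS : IsLaw S) (s : G) (y : Fin m → G) :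
    0 ≤ jt X S s y :=
  mul_nonneg (hS.nonneg s) (Finset.prod_nonneg (fun _ _ => hX.nonneg _))

theorem sum_shift {X : G → ℝ} (hX : IsLaw X) (s : G) : ∑ x, X (x - s) = 1 := by
  rw [sum_sub_right X s, hX.sum_one]

theorem sum_jt {X S : G → ℝ} (hX : IsLaw X) (s : G) :
    ∑ y : Fin m → G, jt X S s y = S s := by
  unfold jt
  rw [← Finset.mul_sum, sum_pi_prod (fun _ x => X (x - s))]
  simp [sum_shift hX s]

theorem W_law {X S : G → ℝ} (hX : IsLaw X) (hS : IsLaw S) : IsLaw (W (m := m) X S) := by
  refine ⟨fun y => Finset.sum_nonneg (fun s _ => jt_nonneg hX hS s y), ?_⟩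
  unfold W
  rw [Finset.sum_comm]
  simp_rw [sum_jt hX]
  exact hS.sum_one

theorem W_nonneg {X S : G → ℝ} (hX : IsLaw X) (hS : IsLaw S) (y : Fin m → G) : 0 ≤ W X S y :=
  (W_law hX hS).nonneg y

theorem nu_nonneg {X S : G → ℝ} (hX : IsLaw X) (hS : IsLaw S) (y : Fin m → G) (s : G) :
    0 ≤ nu X S y s := div_nonneg (jt_nonneg hX hS s y) (W_nonneg hX hS y)

theorem nu_law {X S : G → ℝ} (hX : IsLaw X) (hS : IsLaw S) {y : Fin m → G} (hy : 0 < W X S y) :
    IsLaw (nu X S y) := by
  refine ⟨nu_nonneg hX hS y, ?_⟩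
  unfold nu
  rw [← Finset.sum_div]
  exact div_self hy.ne'

theorem jt_zero_of_W {X S : G → ℝ} (hX : IsLaw X) (hS : IsLaw S) {y : Fin m → G}
    (hy : W X S y = 0) (s : G) : jt X S s y = 0 := by
  unfold W at hy
  exact (Finset.sum_eq_zero_iff_of_nonneg (fun s _ => jt_nonneg hX hS s y)).1 hy s
    (Finset.mem_univ s)

theorem W_mul_nu {X S : G → ℝ} (hX : IsLaw X) (hS : IsLaw S) (y : Fin m → G) (s : G) :
    W X S y * nu X S y s = jt X S s y := by
  unfold nu
  rcases eq_or_ne (W X S y) 0 with h | h
  · rw [h, jt_zero_of_W hX hS h]; simp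
  · rw [mul_div_cancel₀ _ h]

theorem sum_W_mul_nu_mul {X S : G → ℝ} (hX : IsLaw X) (hS : IsLaw S) (y : Fin m → G) (s : G) :
    ∑ s', W X S y * nu X S y s * nu X S y s' = jt X S s y := by
  rw [← Finset.mul_sum, W_mul_nu hX hS]
  rcases eq_or_lt_of_le (W_nonneg hX hS y) with h | h
  · rw [jt_zero_of_W hX hS h.symm]; simp
  · rw [(nu_law hX hS h).sum_one, mul_one]

/-- The cost of the sampling. -/
theorem cost {X S : G → ℝ} (hX : IsLaw X) (hS : IsLaw S) :
    ∑ y : Fin m → G, W X S y * De (nu X S y) ≤ De S + m * (De X - De (cv X S)) := by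
  classical
  set N : ℝ := (Fintype.card G : ℝ) with hN
  have hNpos : 0 < N := card_pos'
  set C := cv X S with hC
  have hCl : IsLaw C := hX.cv hS
  -- W log R with R y = ∏ C (y j)
  have hWl := W_law (m := m) hX hS
  have hCval : ∀ z s, S s ≠ 0 → C z = 0 → X (z - s) = 0 := by
    intro z s hs hz
    rw [hC, cv_comm] at hz
    unfold cv at hz
    have h0 := (Finset.sum_eq_zero_iff_of_nonneg
      (fun x _ => mul_nonneg (hS.nonneg x) (hX.nonneg (z - x)))).1 hz s (Finset.mem_univ s)
    exact (mul_eq_zero.1 h0).resolve_left hs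
  have hac : ∀ y : Fin m → G, (∏ j, C (y j)) = 0 → W X S y = 0 := by
    intro y hy
    obtain ⟨j, _, hj⟩ := Finset.prod_eq_zero_iff.1 hy
    unfold W
    refine Finset.sum_eq_zero (fun s _ => ?_)
    unfold jt
    rcases eq_or_ne (S s) 0 with h | h
    · rw [h, zero_mul]
    · rw [Finset.prod_eq_zero (Finset.mem_univ j) (hCval _ s h hj), mul_zero]
  have hgibbs := gibbs (p := W (m := m) X S) (q := fun y => ∏ j, C (y j)) hWl.nonneg
    (fun y => Finset.prod_nonneg (fun j _ => hCl.nonneg _)) (by
      rw [hWl.sum_one, sum_pi_prod (fun _ => C)]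
      simp [hCl.sum_one]) hac
  -- evaluation of ∑ W log ∏ C
  have e1 : ∑ y : Fin m → G, W X S y * Real.log (∏ j, C (y j))
      = m * ∑ z, C z * Real.log (C z) := by
    have h1 : ∀ y : Fin m → G, W X S y * Real.log (∏ j, C (y j))
        = ∑ j, W X S y * Real.log (C (y j)) := by
      intro y
      rcases eq_or_ne (W X S y) 0 with h | h
      · simp [h]
      · have h2 : ∀ j ∈ (Finset.univ : Finset (Fin m)), C (y j) ≠ 0 := by
          intro j _ hj
          exact h (hac y (Finset.prod_eq_zero (Finset.mem_univ j) hj))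
        rw [Real.log_prod h2, Finset.mul_sum]
    rw [Finset.sum_congr rfl (fun y _ => h1 y), Finset.sum_comm]
    have h3 : ∀ j : Fin m, ∑ y : Fin m → G, W X S y * Real.log (C (y j))
        = ∑ z, C z * Real.log (C z) := by
      intro j
      unfold W
      have h4 : ∀ y : Fin m → G, (∑ s, jt X S s y) * Real.log (C (y j))
          = ∑ s, S s * ((∏ i, X (y i - s)) * Real.log (C (y j))) := by
        intro y
        rw [Finset.sum_mul]
        exact Finset.sum_congr rfl (fun s _ => by unfold jt; ring)
      rw [Finset.sum_congr rfl (fun y _ => h4 y), Finset.sum_comm]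
      have h5 : ∀ s, ∑ y : Fin m → G, S s * ((∏ i, X (y i - s)) * Real.log (C (y j)))
          = ∑ z, (S s * X (z - s)) * Real.log (C z) := by
        intro s
        rw [← Finset.mul_sum, sum_pi_single (fun _ x => X (x - s)) (fun _ => sum_shift hX s) j
          (fun z => Real.log (C z)), Finset.mul_sum]
        exact Finset.sum_congr rfl (fun z _ => by ring)
      rw [Finset.sum_congr rfl (fun s _ => h5 s), Finset.sum_comm]
      refine Finset.sum_congr rfl (fun z _ => ?_)
      rw [← Finset.sum_mul]
      congr 1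
      rw [hC, cv_comm]
      rfl
    rw [Finset.sum_congr rfl (fun j _ => h3 j), Finset.sum_const, Finset.card_univ,
      Fintype.card_fin, nsmul_eq_mul]
  -- evaluation of ∑ W De ν
  have e2 : ∑ y : Fin m → G, W X S y * De (nu X S y)
      = De S + m * ∑ x, X x * Real.log (X x) - ∑ y : Fin m → G, W X S y * Real.log (W X S y) := by
    have h1 : ∀ y : Fin m → G, W X S y * De (nu X S y)
        = ∑ s, (jt X S s y * Real.log (N * S s) + ∑ j, jt X S s y * Real.log (X (y j - s)))
          - W X S y * Real.log (W X S y) := by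
      intro y
      unfold De
      have h2 : W X S y * Real.log (W X S y) = ∑ s, jt X S s y * Real.log (W X S y) := by
        rw [← Finset.sum_mul]; rfl
      rw [Finset.mul_sum, h2, ← Finset.sum_sub_distrib]
      refine Finset.sum_congr rfl (fun s _ => ?_)
      rw [← mul_assoc, W_mul_nu hX hS]
      rcases eq_or_ne (jt X S s y) 0 with h | h
      · simp [h]
      · have hWne : W X S y ≠ 0 := fun h0 => h (jt_zero_of_W hX hS h0 s)
        have hSs : S s ≠ 0 := fun h0 => h (by unfold jt; rw [h0, zero_mul])
        have hXs : ∀ j ∈ (Finset.univ : Finset (Fin m)), X (y j - s) ≠ 0 := by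
          intro j _ h0
          exact h (by unfold jt; rw [Finset.prod_eq_zero (Finset.mem_univ j) h0, mul_zero])
        have h3 : Real.log (N * nu X S y s)
            = Real.log (N * S s) + ∑ j, Real.log (X (y j - s)) - Real.log (W X S y) := by
          unfold nu jt
          rw [← mul_div_assoc, Real.log_div (by
            refine mul_ne_zero hNpos.ne' (mul_ne_zero hSs (Finset.prod_ne_zero_iff.2 hXs))) hWne,
            ← mul_assoc, Real.log_mul (mul_ne_zero hNpos.ne' hSs) (Finset.prod_ne_zero_iff.2 hXs),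
            Real.log_prod hXs]
        rw [h3, ← Finset.mul_sum]; ring
    rw [Finset.sum_congr rfl (fun y _ => h1 y), Finset.sum_sub_distrib]
    congr 1
    rw [Finset.sum_comm]
    have h4 : ∀ s, ∑ y : Fin m → G, (jt X S s y * Real.log (N * S s)
        + ∑ j, jt X S s y * Real.log (X (y j - s)))
        = S s * Real.log (N * S s) + S s * (m * ∑ x, X x * Real.log (X x)) := by
      intro s
      rw [Finset.sum_add_distrib, ← Finset.sum_mul, sum_jt hX, Finset.sum_comm]
      congr 1
      have h5 : ∀ j : Fin m, ∑ y : Fin m → G, jt X S s y * Real.log (X (y j - s))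
          = S s * ∑ x, X x * Real.log (X x) := by
        intro j
        unfold jt
        have h6 : ∀ y : Fin m → G, S s * (∏ i, X (y i - s)) * Real.log (X (y j - s))
            = S s * ((∏ i, X (y i - s)) * Real.log (X (y j - s))) := fun y => by ring
        rw [Finset.sum_congr rfl (fun y _ => h6 y), ← Finset.mul_sum,
          sum_pi_single (fun _ x => X (x - s)) (fun _ => sum_shift hX s) j
            (fun z => Real.log (X (z - s)))]
        congr 1
        exact sum_sub_right (fun x => X x * Real.log (X x)) s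
      rw [Finset.sum_congr rfl (fun j _ => h5 j), Finset.sum_const, Finset.card_univ,
        Fintype.card_fin, nsmul_eq_mul]
      ring
    rw [Finset.sum_congr rfl (fun s _ => h4 s), Finset.sum_add_distrib, ← Finset.sum_mul,
      hS.sum_one, one_mul]
    rfl
  rw [e2]
  rw [e1] at hgibbs
  rw [De_eq hX, De_eq hCl]
  have : (m : ℝ) * (Real.log (Fintype.card G) + ∑ x, X x * Real.log (X x)
      - (Real.log (Fintype.card G) + ∑ x, C x * Real.log (C x)))
      = m * ∑ x, X x * Real.log (X x) - m * ∑ x, C x * Real.log (C x) := by ring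
  rw [this]
  linarith

end Pool.TenA
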