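import Mathlib
import Pool.Agent.TenA.Samp

set_option autoImplicit false

namespace Pool.TenA

open Finset

/-- A weak form of Hoeffding's lemma, by symmetrisation. -/
theorem hoeff {ι : Type*} [Fintype ι] {p c : ι → ℝ} (hp : IsLaw p) (h0 : ∀ x, 0 ≤ c x)
    (h1 : ∀ x, c x ≤ 1) (t : ℝ) :
    ∑ x, p x * Real.exp (t * (∑ x', p x' * c x' - c x)) ≤ Real.exp (t ^ 2 / 2) := by
  set F := ∑ x', p x' * c x' with hF
  have hj : Real.exp (t * F) ≤ ∑ x', p x' * Real.exp (t * c x') := by
    have h := convexOn_exp.map_sum_le (t := Finset.univ) (w := p) (p := fun x => t * c x)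
      (fun x _ => hp.nonneg x) hp.sum_one (fun x _ => Set.mem_univ _)
    simp only [smul_eq_mul] at h
    have e : ∑ x, p x * (t * c x) = t * F := by
      rw [hF, Finset.mul_sum]; exact Finset.sum_congr rfl (fun x _ => by ring)
    rwa [e] at h
  have e1 : ∑ x, p x * Real.exp (t * (F - c x)) = Real.exp (t * F) * ∑ x, p x * Real.exp (-(t * c x)) := by
    rw [Finset.mul_sum]
    refine Finset.sum_congr rfl (fun x _ => ?_)
    rw [show t * (F - c x) = t * F + -(t * c x) by ring, Real.exp_add]; ring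
  have hnn : 0 ≤ ∑ x, p x * Real.exp (-(t * c x)) :=
    Finset.sum_nonneg (fun x _ => mul_nonneg (hp.nonneg x) (Real.exp_pos _).le)
  have e2 : (∑ x', p x' * Real.exp (t * c x')) * ∑ x, p x * Real.exp (-(t * c x))
      = ∑ x', ∑ x, p x' * p x * Real.exp (t * (c x' - c x)) := by
    rw [Finset.sum_mul_sum]
    refine Finset.sum_congr rfl (fun x' _ => Finset.sum_congr rfl (fun x _ => ?_))
    rw [show t * (c x' - c x) = t * c x' + -(t * c x) by ring, Real.exp_add]; ring
  have e3 : ∑ x', ∑ x, p x' * p x * Real.exp (t * (c x' - c x))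
      = ∑ x', ∑ x, p x' * p x * Real.exp (-(t * (c x' - c x))) := by
    rw [Finset.sum_comm]
    refine Finset.sum_congr rfl (fun x' _ => Finset.sum_congr rfl (fun x _ => ?_))
    rw [show t * (c x - c x') = -(t * (c x' - c x)) by ring]; ring
  have e4 : ∑ x', ∑ x, p x' * p x * Real.exp (t * (c x' - c x))
      = ∑ x', ∑ x, p x' * p x * Real.cosh (t * (c x' - c x)) := by
    have h : ∑ x', ∑ x, p x' * p x * Real.cosh (t * (c x' - c x))
        = (∑ x', ∑ x, p x' * p x * Real.exp (t * (c x' - c x))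
          + ∑ x', ∑ x, p x' * p x * Real.exp (-(t * (c x' - c x)))) / 2 := by
      rw [← Finset.sum_add_distrib, Finset.sum_div]
      refine Finset.sum_congr rfl (fun x' _ => ?_)
      rw [← Finset.sum_add_distrib, Finset.sum_div]
      refine Finset.sum_congr rfl (fun x _ => ?_)
      rw [Real.cosh_eq]; ring
    rw [h, ← e3]; ring
  calc ∑ x, p x * Real.exp (t * (F - c x)) = Real.exp (t * F) * ∑ x, p x * Real.exp (-(t * c x)) := e1
    _ ≤ (∑ x', p x' * Real.exp (t * c x')) * ∑ x, p x * Real.exp (-(t * c x)) :=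
        mul_le_mul_of_nonneg_right hj hnn
    _ = ∑ x', ∑ x, p x' * p x * Real.cosh (t * (c x' - c x)) := by rw [e2, e4]
    _ ≤ ∑ x', ∑ x, p x' * p x * Real.exp (t ^ 2 / 2) := by
        refine Finset.sum_le_sum (fun x' _ => Finset.sum_le_sum (fun x _ => ?_))
        refine mul_le_mul_of_nonneg_left ?_ (mul_nonneg (hp.nonneg _) (hp.nonneg _))
        refine (Real.cosh_le_exp_half_sq _).trans (Real.exp_le_exp.2 ?_)
        have h5 : (c x' - c x) ^ 2 ≤ 1 := by
          have a1 := h0 x; have a2 := h1 x; have a3 := h0 x'; have a4 := h1 x'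
          rw [sq_le_one_iff_abs_le_one, abs_le]; constructor <;> linarith
        rw [mul_pow]
        nlinarith [sq_nonneg t]
    _ = Real.exp (t ^ 2 / 2) := by
        simp_rw [← Finset.sum_mul, ← Finset.mul_sum, hp.sum_one, mul_one, hp.sum_one, one_mul]

/-- weighted Cauchy-Schwarz -/
theorem wcs {ι : Type*} (s : Finset ι) (w u v : ι → ℝ) (hw : ∀ i ∈ s, 0 ≤ w i) :
    (∑ i ∈ s, w i * (u i * v i)) ^ 2 ≤ (∑ i ∈ s, w i * u i ^ 2) * ∑ i ∈ s, w i * v i ^ 2 := by
  have h := Finset.sum_mul_sq_le_sq_mul_sq s (fun i => Real.sqrt (w i) * u i)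
    (fun i => Real.sqrt (w i) * v i)
  have e1 : ∑ i ∈ s, (Real.sqrt (w i) * u i) * (Real.sqrt (w i) * v i) = ∑ i ∈ s, w i * (u i * v i) := by
    refine Finset.sum_congr rfl (fun i hi => ?_)
    have := Real.mul_self_sqrt (hw i hi)
    calc _ = (Real.sqrt (w i) * Real.sqrt (w i)) * (u i * v i) := by ring
      _ = _ := by rw [this]
  have e2 : ∀ f : ι → ℝ, ∑ i ∈ s, (Real.sqrt (w i) * f i) ^ 2 = ∑ i ∈ s, w i * f i ^ 2 := by
    intro f
    refine Finset.sum_congr rfl (fun i hi => ?_)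
    rw [mul_pow, Real.sq_sqrt (hw i hi)]
  rw [e1, e2, e2] at h
  exact h

variable {G : Type*} [Fintype G] [AddCommGroup G] {m : ℕ}

/-- averaged step law of the walk -/
noncomputable def qq (m : ℕ) (X S : G → ℝ) (t : G) : ℝ :=
  ∑ y : Fin m → G, W X S y * ac (nu X S y) t

theorem qq_law {X S : G → ℝ} (hX : IsLaw X) (hS : IsLaw S) : IsLaw (qq m X S) := by
  have hac : ∀ y : Fin m → G, ∀ t, 0 ≤ ac (nu X S y) t := fun y t =>
    Finset.sum_nonneg (fun s _ => mul_nonneg (nu_nonneg hX hS y _) (nu_nonneg hX hS y _))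
  refine ⟨fun t => Finset.sum_nonneg (fun y _ => mul_nonneg (W_nonneg hX hS y) (hac y t)), ?_⟩
  unfold qq
  rw [Finset.sum_comm]
  have h : ∀ y : Fin m → G, ∑ t, W X S y * ac (nu X S y) t = W X S y := by
    intro y
    rw [← Finset.mul_sum]
    rcases eq_or_lt_of_le (W_nonneg hX hS y) with h0 | h0
    · rw [← h0, zero_mul]
    · rw [(nu_law hX hS h0).ac.sum_one, mul_one]
  rw [Finset.sum_congr rfl (fun y _ => h y)]
  exact (W_law hX hS).sum_one

theorem sum_ac (p g : G → ℝ) : ∑ t, ac p t * g t = ∑ s, ∑ s', p s * p s' * g (s - s') := by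
  unfold ac
  simp_rw [Finset.sum_mul]
  rw [Finset.sum_comm]
  refine Finset.sum_congr rfl (fun s _ => ?_)
  rw [← sum_sub_left (fun t => p s * p (s - t) * g t) s]
  refine Finset.sum_congr rfl (fun t _ => ?_)
  rw [sub_sub_cancel]

theorem sum_qq (X S g : G → ℝ) : ∑ t, qq m X S t * g t
    = ∑ y : Fin m → G, ∑ s, ∑ s', W X S y * nu X S y s * nu X S y s' * g (s - s') := by
  unfold qq
  simp_rw [Finset.sum_mul]
  rw [Finset.sum_comm]
  refine Finset.sum_congr rfl (fun y _ => ?_)
  have h : ∀ t, W X S y * ac (nu X S y) t * g t = W X S y * (ac (nu X S y) t * g t) :=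
    fun t => by ring
  rw [Finset.sum_congr rfl (fun t _ => h t), ← Finset.mul_sum, sum_ac, Finset.mul_sum]
  refine Finset.sum_congr rfl (fun s _ => ?_)
  rw [Finset.mul_sum]
  exact Finset.sum_congr rfl (fun s' _ => by ring)

/-- The function whose almost periods are sampled. -/
noncomputable def Fx (X f : G → ℝ) (z : G) : ℝ := ∑ x, X x * f (z + x)

/-- empirical version of `Fx` -/
noncomputable def Gm (f : G → ℝ) (z s : G) (y : Fin m → G) : ℝ := (∑ j, f (z - s + y j)) / m

theorem row {X S f : G → ℝ} (hX : IsLaw X) (hS : IsLaw S) (h0 : ∀ x, 0 ≤ f x)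
    (h1 : ∀ x, f x ≤ 1) (hm : 0 < m) (l : ℝ) (z : G) :
    ∑ y : Fin m → G, ∑ s, jt X S s y * Real.exp (2 * l * (Fx X f z - Gm f z s y))
      ≤ Real.exp (2 * l ^ 2 / m) := by
  have hmR : (0 : ℝ) < m := by exact_mod_cast hm
  rw [Finset.sum_comm]
  have h : ∀ s, ∑ y : Fin m → G, jt X S s y * Real.exp (2 * l * (Fx X f z - Gm f z s y))
      ≤ S s * Real.exp (2 * l ^ 2 / m) := by
    intro s
    have e1 : ∀ y : Fin m → G, jt X S s y * Real.exp (2 * l * (Fx X f z - Gm f z s y))
        = S s * ∏ j, (X (y j - s) * Real.exp (2 * l / m * (Fx X f z - f (z - s + y j)))) := by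
      intro y
      unfold jt
      rw [Finset.prod_mul_distrib, ← Real.exp_sum, ← Finset.mul_sum, Finset.sum_sub_distrib,
        Finset.sum_const, Finset.card_univ, Fintype.card_fin, nsmul_eq_mul]
      have : 2 * l * (Fx X f z - Gm f z s y)
          = 2 * l / m * (m * Fx X f z - ∑ j, f (z - s + y j)) := by
        unfold Gm; field_simp
      rw [this]; ring
    rw [Finset.sum_congr rfl (fun y _ => e1 y), ← Finset.mul_sum,
      sum_pi_prod (fun _ x => X (x - s) * Real.exp (2 * l / m * (Fx X f z - f (z - s + x))))]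
    refine mul_le_mul_of_nonneg_left ?_ (hS.nonneg s)
    rw [Finset.prod_const, Finset.card_univ, Fintype.card_fin]
    have e2 : ∑ x, X (x - s) * Real.exp (2 * l / m * (Fx X f z - f (z - s + x)))
        = ∑ x, X x * Real.exp (2 * l / m * (Fx X f z - f (z + x))) := by
      rw [← sum_sub_right (fun x => X x * Real.exp (2 * l / m * (Fx X f z - f (z + x)))) s]
      refine Finset.sum_congr rfl (fun x _ => ?_)
      rw [show z - s + x = z + (x - s) by abel]
    rw [e2]
    have h3 := hoeff hX (fun x => h0 (z + x)) (fun x => h1 (z + x)) (2 * l / m)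
    calc (∑ x, X x * Real.exp (2 * l / m * (Fx X f z - f (z + x)))) ^ m
        ≤ (Real.exp ((2 * l / m) ^ 2 / 2)) ^ m :=
          pow_le_pow_left₀ (Finset.sum_nonneg (fun x _ =>
            mul_nonneg (hX.nonneg x) (Real.exp_pos _).le)) h3 m
      _ = Real.exp (2 * l ^ 2 / m) := by
          rw [← Real.exp_nat_mul]
          congr 1
          field_simp
  calc _ ≤ ∑ s, S s * Real.exp (2 * l ^ 2 / m) := Finset.sum_le_sum (fun s _ => h s)
    _ = _ := by rw [← Finset.sum_mul, hS.sum_one, one_mul]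

/-- The transition operator. -/
noncomputable def Tr (q φ : G → ℝ) (z : G) : ℝ := ∑ t, q t * φ (z + t)

/-- The twisted transition operator has small norm: bilinear form. -/
theorem bilin {X S f : G → ℝ} (hX : IsLaw X) (hS : IsLaw S) (h0 : ∀ x, 0 ≤ f x)
    (h1 : ∀ x, f x ≤ 1) (hm : 0 < m) (l : ℝ) (ψ φ : G → ℝ) :
    (∑ z, ψ z * ∑ t, qq m X S t * (Real.exp (l * (Fx X f z - Fx X f (z + t))) * φ (z + t))) ^ 2
      ≤ (Real.exp (2 * l ^ 2 / m)) ^ 2 * ((∑ z, ψ z ^ 2) * ∑ z, φ z ^ 2) := by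
  classical
  set F := Fx X f with hF
  set a := Real.exp (2 * l ^ 2 / m) with ha
  have hapos : 0 < a := Real.exp_pos _
  set w : G × (Fin m → G) × G × G → ℝ :=
    fun i => W X S i.2.1 * nu X S i.2.1 i.2.2.1 * nu X S i.2.1 i.2.2.2 with hw
  have hwnn : ∀ i, 0 ≤ w i := fun i =>
    mul_nonneg (mul_nonneg (W_nonneg hX hS _) (nu_nonneg hX hS _ _)) (nu_nonneg hX hS _ _)
  set u : G × (Fin m → G) × G × G → ℝ :=
    fun i => ψ i.1 * Real.exp (l * (F i.1 - Gm f i.1 i.2.2.2 i.2.1)) with hu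
  set v : G × (Fin m → G) × G × G → ℝ :=
    fun i => φ (i.1 + (i.2.2.1 - i.2.2.2))
      * Real.exp (l * (Gm f i.1 i.2.2.2 i.2.1 - F (i.1 + (i.2.2.1 - i.2.2.2)))) with hv
  have e1 : ∑ z, ψ z * ∑ t, qq m X S t * (Real.exp (l * (F z - F (z + t))) * φ (z + t))
      = ∑ i, w i * (u i * v i) := by
    rw [Fintype.sum_prod_type]
    refine Finset.sum_congr rfl (fun z _ => ?_)
    rw [sum_qq X S (fun t => Real.exp (l * (F z - F (z + t))) * φ (z + t)), Fintype.sum_prod_type,
      Finset.mul_sum]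
    refine Finset.sum_congr rfl (fun y _ => ?_)
    rw [Fintype.sum_prod_type, Finset.mul_sum]
    refine Finset.sum_congr rfl (fun s _ => ?_)
    rw [Finset.mul_sum]
    refine Finset.sum_congr rfl (fun s' _ => ?_)
    simp only [hw, hu, hv]
    have : Real.exp (l * (F z - F (z + (s - s'))))
        = Real.exp (l * (F z - Gm f z s' y)) * Real.exp (l * (Gm f z s' y - F (z + (s - s')))) := by
      rw [← Real.exp_add]; congr 1; ring
    rw [this]; ring
  rw [e1]
  have hcs := wcs Finset.univ w u v (fun i _ => hwnn i)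
  -- first factor
  have b1 : ∑ i, w i * u i ^ 2 ≤ a * ∑ z, ψ z ^ 2 := by
    rw [Fintype.sum_prod_type, Finset.mul_sum]
    refine Finset.sum_le_sum (fun z _ => ?_)
    have e2 : ∑ i : (Fin m → G) × G × G, w (z, i) * u (z, i) ^ 2
        = ψ z ^ 2 * ∑ y : Fin m → G, ∑ s', jt X S s' y * Real.exp (2 * l * (F z - Gm f z s' y)) := by
      rw [Fintype.sum_prod_type, Finset.mul_sum]
      refine Finset.sum_congr rfl (fun y _ => ?_)
      rw [Fintype.sum_prod_type, Finset.sum_comm, Finset.mul_sum]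
      refine Finset.sum_congr rfl (fun s' _ => ?_)
      have e3 : ∀ s, w (z, y, s, s') * u (z, y, s, s') ^ 2
          = (W X S y * nu X S y s' * nu X S y s)
            * (ψ z ^ 2 * Real.exp (2 * l * (F z - Gm f z s' y))) := by
        intro s
        simp only [hw, hu]
        rw [mul_pow, ← Real.exp_nat_mul]
        rw [show ((2 : ℕ) : ℝ) * (l * (F z - Gm f z s' y)) = 2 * l * (F z - Gm f z s' y) by
          push_cast; ring]
        ring
      rw [Finset.sum_congr rfl (fun s _ => e3 s), ← Finset.sum_mul, sum_W_mul_nu_mul hX hS]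
      ring
    rw [e2, mul_comm a]
    exact mul_le_mul_of_nonneg_left (row hX hS h0 h1 hm l z) (sq_nonneg _)
  have b2 : ∑ i, w i * v i ^ 2 ≤ a * ∑ z, φ z ^ 2 := by
    have e2 : ∑ i, w i * v i ^ 2 = ∑ z, ∑ y : Fin m → G, ∑ s, ∑ s',
        (W X S y * nu X S y s * nu X S y s')
          * (φ z ^ 2 * Real.exp (2 * (-l) * (F z - Gm f z s y))) := by
      rw [Fintype.sum_prod_type, Finset.sum_comm]
      rw [Fintype.sum_prod_type]
      conv_rhs => rw [Finset.sum_comm]
      refine Finset.sum_congr rfl (fun y _ => ?_)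
      rw [Fintype.sum_prod_type]
      conv_rhs => rw [Finset.sum_comm]
      refine Finset.sum_congr rfl (fun s _ => ?_)
      conv_rhs => rw [Finset.sum_comm]
      refine Finset.sum_congr rfl (fun s' _ => ?_)
      rw [← sum_add_right (fun z => W X S y * nu X S y s * nu X S y s'
        * (φ z ^ 2 * Real.exp (2 * (-l) * (F z - Gm f z s y)))) (s - s')]
      refine Finset.sum_congr rfl (fun z _ => ?_)
      simp only [hw, hv]
      have e5 : Gm f (z + (s - s')) s y = Gm f z s' y := by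
        unfold Gm
        congr 1
        refine Finset.sum_congr rfl (fun j _ => ?_)
        congr 1; abel
      rw [e5, mul_pow, ← Real.exp_nat_mul]
      rw [show ((2 : ℕ) : ℝ) * (l * (Gm f z s' y - F (z + (s - s'))))
        = 2 * (-l) * (F (z + (s - s')) - Gm f z s' y) by push_cast; ring]
    rw [e2, Finset.mul_sum]
    refine Finset.sum_le_sum (fun z _ => ?_)
    have e3 : ∑ y : Fin m → G, ∑ s, ∑ s', (W X S y * nu X S y s * nu X S y s')
          * (φ z ^ 2 * Real.exp (2 * (-l) * (F z - Gm f z s y)))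
        = φ z ^ 2 * ∑ y : Fin m → G, ∑ s, jt X S s y * Real.exp (2 * (-l) * (F z - Gm f z s y)) := by
      rw [Finset.mul_sum]
      refine Finset.sum_congr rfl (fun y _ => ?_)
      rw [Finset.mul_sum]
      refine Finset.sum_congr rfl (fun s _ => ?_)
      rw [← Finset.sum_mul, sum_W_mul_nu_mul hX hS]
      ring
    rw [e3, mul_comm a]
    refine mul_le_mul_of_nonneg_left ?_ (sq_nonneg _)
    have := row hX hS h0 h1 hm (-l) z
    rwa [neg_sq] at this
  have hu0 : 0 ≤ ∑ i, w i * u i ^ 2 := Finset.sum_nonneg (fun i _ => mul_nonneg (hwnn i) (sq_nonneg _))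
  have hv0 : 0 ≤ ∑ i, w i * v i ^ 2 := Finset.sum_nonneg (fun i _ => mul_nonneg (hwnn i) (sq_nonneg _))
  calc _ ≤ (∑ i, w i * u i ^ 2) * ∑ i, w i * v i ^ 2 := hcs
    _ ≤ (a * ∑ z, ψ z ^ 2) * (a * ∑ z, φ z ^ 2) :=
        mul_le_mul b1 b2 hv0 (mul_nonneg hapos.le (Finset.sum_nonneg (fun _ _ => sq_nonneg _)))
    _ = _ := by ring

end Pool.TenA
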