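import Mathlib
import Pool.Agent.TenA.Walk

set_option autoImplicit false

namespace Pool.TenA

open Finset

variable {G : Type*} [Fintype G] [AddCommGroup G] {m : ℕ}

noncomputable def ev (Y φ : G → ℝ) : ℝ := ∑ z, Y z * φ z

theorem Tr_mono {q φ ψ : G → ℝ} (hq : IsLaw q) (h : ∀ z, φ z ≤ ψ z) (z : G) :
    Tr q φ z ≤ Tr q ψ z :=
  Finset.sum_le_sum (fun t _ => mul_le_mul_of_nonneg_left (h _) (hq.nonneg t))

theorem Tr_smul (q φ : G → ℝ) (c : ℝ) : Tr q (fun z => c * φ z) = fun z => c * Tr q φ z := by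
  funext z
  unfold Tr
  rw [Finset.mul_sum]
  exact Finset.sum_congr rfl (fun t _ => by ring)

theorem Tr_iter_smul (q φ : G → ℝ) (c : ℝ) (k : ℕ) :
    (Tr q)^[k] (fun z => c * φ z) = fun z => c * (Tr q)^[k] φ z := by
  induction k generalizing φ with
  | zero => rfl
  | succ k ih => rw [Function.iterate_succ_apply, Function.iterate_succ_apply, Tr_smul, ih]

theorem Tr_exp {q : G → ℝ} (hq : IsLaw q) (φ : G → ℝ) (z : G) :
    Real.exp (Tr q φ z) ≤ Tr q (fun x => Real.exp (φ x)) z := by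
  have h := convexOn_exp.map_sum_le (t := Finset.univ) (w := q) (p := fun t => φ (z + t))
      (fun x _ => hq.nonneg x) hq.sum_one (fun x _ => Set.mem_univ _)
  simpa only [smul_eq_mul, Tr] using h

theorem Tr_iter_mono {q : G → ℝ} (hq : IsLaw q) (k : ℕ) {φ ψ : G → ℝ} (h : ∀ z, φ z ≤ ψ z)
    (z : G) : (Tr q)^[k] φ z ≤ (Tr q)^[k] ψ z := by
  induction k generalizing φ ψ with
  | zero => exact h z
  | succ k ih =>
    rw [Function.iterate_succ_apply, Function.iterate_succ_apply]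
    exact ih (fun z => Tr_mono hq h z)

theorem Tr_iter_exp {q : G → ℝ} (hq : IsLaw q) (φ : G → ℝ) (k : ℕ) (z : G) :
    Real.exp ((Tr q)^[k] φ z) ≤ (Tr q)^[k] (fun x => Real.exp (φ x)) z := by
  induction k generalizing φ with
  | zero => exact le_rfl
  | succ k ih =>
    rw [Function.iterate_succ_apply, Function.iterate_succ_apply]
    exact (ih _).trans (Tr_iter_mono hq k (fun z => Tr_exp hq φ z) z)

/-- twisted transition operator -/
noncomputable def Cw (q F : G → ℝ) (l : ℝ) (φ : G → ℝ) (z : G) : ℝ :=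
  ∑ t, q t * (Real.exp (l * (F z - F (z + t))) * φ (z + t))

theorem Cw_eq (q F : G → ℝ) (l : ℝ) (φ : G → ℝ) (z : G) :
    Cw q F l φ z = Real.exp (l * F z) * Tr q (fun x => Real.exp (-(l * F x)) * φ x) z := by
  unfold Cw Tr
  rw [Finset.mul_sum]
  refine Finset.sum_congr rfl (fun t _ => ?_)
  rw [show l * (F z - F (z + t)) = l * F z + -(l * F (z + t)) by ring, Real.exp_add]; ring

theorem Cw_iter (q F : G → ℝ) (l : ℝ) (φ : G → ℝ) (k : ℕ) (z : G) :
    (Cw q F l)^[k] φ z = Real.exp (l * F z) * (Tr q)^[k] (fun x => Real.exp (-(l * F x)) * φ x) z := by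
  induction k generalizing φ with
  | zero =>
    simp only [Function.iterate_zero, id_eq]
    rw [← mul_assoc, ← Real.exp_add]; simp
  | succ k ih =>
    rw [Function.iterate_succ_apply, ih, Function.iterate_succ_apply]
    have e : (fun x => Real.exp (-(l * F x)) * Cw q F l φ x)
        = Tr q (fun x => Real.exp (-(l * F x)) * φ x) := by
      funext x
      rw [Cw_eq, ← mul_assoc, ← Real.exp_add]; simp
    rw [e]

theorem Cw_norm {X S f : G → ℝ} (hX : IsLaw X) (hS : IsLaw S) (h0 : ∀ x, 0 ≤ f x)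
    (h1 : ∀ x, f x ≤ 1) (hm : 0 < m) (l : ℝ) (φ : G → ℝ) :
    ∑ z, (Cw (qq m X S) (Fx X f) l φ z) ^ 2 ≤ (Real.exp (2 * l ^ 2 / m)) ^ 2 * ∑ z, φ z ^ 2 := by
  set ψ := Cw (qq m X S) (Fx X f) l φ with hψ
  have h := bilin hX hS h0 h1 hm l ψ φ
  have e : ∑ z, ψ z * ∑ t, qq m X S t * (Real.exp (l * (Fx X f z - Fx X f (z + t))) * φ (z + t))
      = ∑ z, ψ z ^ 2 := by
    refine Finset.sum_congr rfl (fun z _ => ?_)
    rw [sq]; rfl
  rw [e] at h
  have hnn : 0 ≤ ∑ z, ψ z ^ 2 := Finset.sum_nonneg (fun _ _ => sq_nonneg _)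
  rcases eq_or_lt_of_le hnn with h2 | h2
  · rw [← h2]
    exact mul_nonneg (sq_nonneg _) (Finset.sum_nonneg (fun _ _ => sq_nonneg _))
  · by_contra hcon
    push Not at hcon
    have : (∑ z, ψ z ^ 2) ^ 2 > (Real.exp (2 * l ^ 2 / m)) ^ 2 * ((∑ z, ψ z ^ 2) * ∑ z, φ z ^ 2) := by
      calc (∑ z, ψ z ^ 2) ^ 2 = (∑ z, ψ z ^ 2) * (∑ z, ψ z ^ 2) := sq _
        _ > (∑ z, ψ z ^ 2) * ((Real.exp (2 * l ^ 2 / m)) ^ 2 * ∑ z, φ z ^ 2) :=
            mul_lt_mul_of_pos_left hcon h2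
        _ = _ := by ring
    linarith

theorem Cw_iter_norm {X S f : G → ℝ} (hX : IsLaw X) (hS : IsLaw S) (h0 : ∀ x, 0 ≤ f x)
    (h1 : ∀ x, f x ≤ 1) (hm : 0 < m) (l : ℝ) (φ : G → ℝ) (k : ℕ) :
    ∑ z, ((Cw (qq m X S) (Fx X f) l)^[k] φ z) ^ 2
      ≤ (Real.exp (2 * l ^ 2 / m)) ^ (2 * k) * ∑ z, φ z ^ 2 := by
  induction k generalizing φ with
  | zero => simp
  | succ k ih =>
    rw [Function.iterate_succ_apply]
    refine (ih _).trans ?_
    calc _ ≤ (Real.exp (2 * l ^ 2 / m)) ^ (2 * k) * ((Real.exp (2 * l ^ 2 / m)) ^ 2 * ∑ z, φ z ^ 2) :=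
          mul_le_mul_of_nonneg_left (Cw_norm hX hS h0 h1 hm l φ) (by positivity)
      _ = _ := by ring

/-- The error of the walk. -/
theorem walk_exp {X S f Y : G → ℝ} {b : ℝ} (hX : IsLaw X) (hS : IsLaw S) (hY : IsLaw Y)
    (hYb : Bd Y (Real.exp b)) (h0 : ∀ x, 0 ≤ f x)
    (h1 : ∀ x, f x ≤ 1) (hm : 0 < m) (l : ℝ) (k : ℕ) :
    l * (ev Y (Fx X f) - ev Y ((Tr (qq m X S))^[k] (Fx X f))) ≤ b + k * (2 * l ^ 2 / m) := by
  set q := qq m X S with hq
  have hql : IsLaw q := qq_law hX hS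
  set F := Fx X f with hF
  set a := Real.exp (2 * l ^ 2 / m) with ha
  set N : ℝ := (Fintype.card G : ℝ) with hN
  have hNpos : 0 < N := card_pos'
  -- total mass of the iterate
  set c := (Cw q F l)^[k] (fun _ => (1 : ℝ)) with hc
  have hsum : ∑ z, c z ≤ N * a ^ k := by
    have h2 : (∑ z, c z) ^ 2 ≤ N * ∑ z, c z ^ 2 := by
      have := wcs Finset.univ (fun _ => (1 : ℝ)) (fun _ : G => (1 : ℝ)) c (fun _ _ => zero_le_one)
      simpa [hN] using this
    have h3 := Cw_iter_norm hX hS h0 h1 hm l (fun _ => (1 : ℝ)) k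
    have h4 : (∑ z, c z) ^ 2 ≤ (N * a ^ k) ^ 2 := by
      refine h2.trans ?_
      calc N * ∑ z, c z ^ 2 ≤ N * (a ^ (2 * k) * ∑ z : G, (1 : ℝ) ^ 2) :=
            mul_le_mul_of_nonneg_left h3 hNpos.le
        _ = _ := by
          simp only [one_pow, Finset.sum_const, Finset.card_univ, nsmul_eq_mul, mul_one]
          rw [mul_pow, ← pow_mul, mul_comm k 2]; ring
    exact le_of_sq_le_sq h4 (by positivity) |>.trans le_rfl
  -- pointwise bound
  have hpt : ∀ z, Real.exp (l * F z - l * (Tr q)^[k] F z) ≤ c z := by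
    intro z
    rw [hc, Cw_iter, sub_eq_add_neg, Real.exp_add]
    refine mul_le_mul_of_nonneg_left ?_ (Real.exp_pos _).le
    have e1 : -(l * (Tr q)^[k] F z) = (Tr q)^[k] (fun x => -l * F x) z := by
      rw [Tr_iter_smul]; ring
    rw [e1]
    refine (Tr_iter_exp hql _ k z).trans (le_of_eq ?_)
    have e2 : (fun x => Real.exp (-l * F x)) = fun x => Real.exp (-(l * F x)) * 1 := by
      funext x
      rw [mul_one]; congr 1; ring
    rw [e2]
  have hcnn : ∀ z, 0 ≤ c z := fun z => (Real.exp_pos _).le.trans (hpt z)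
  -- Jensen
  have hj : Real.exp (l * (ev Y F - ev Y ((Tr q)^[k] F))) ≤ ∑ z, Y z * c z := by
    have h := convexOn_exp.map_sum_le (t := Finset.univ) (w := Y)
      (p := fun z => l * F z - l * (Tr q)^[k] F z)
      (fun x _ => hY.nonneg x) hY.sum_one (fun x _ => Set.mem_univ _)
    simp only [smul_eq_mul] at h
    have e : ∑ z, Y z * (l * F z - l * (Tr q)^[k] F z) = l * (ev Y F - ev Y ((Tr q)^[k] F)) := by
      unfold ev
      rw [← Finset.sum_sub_distrib, Finset.mul_sum]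
      exact Finset.sum_congr rfl (fun z _ => by ring)
    rw [e] at h
    exact h.trans (Finset.sum_le_sum (fun z _ => mul_le_mul_of_nonneg_left (hpt z) (hY.nonneg z)))
  have hfin : ∑ z, Y z * c z ≤ Real.exp b * a ^ k := by
    have h5 : N * ∑ z, Y z * c z ≤ Real.exp b * ∑ z, c z := by
      rw [Finset.mul_sum, Finset.mul_sum]
      refine Finset.sum_le_sum (fun z _ => ?_)
      rw [← mul_assoc]
      exact mul_le_mul_of_nonneg_right (hYb z) (hcnn z)
    have h6 : N * ∑ z, Y z * c z ≤ N * (Real.exp b * a ^ k) := by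
      refine h5.trans ?_
      calc Real.exp b * ∑ z, c z ≤ Real.exp b * (N * a ^ k) :=
            mul_le_mul_of_nonneg_left hsum (Real.exp_pos _).le
        _ = _ := by ring
    exact le_of_mul_le_mul_left h6 hNpos
  have hall := hj.trans hfin
  rw [ha, ← Real.exp_nat_mul, ← Real.exp_add] at hall
  exact Real.exp_le_exp.1 hall

end Pool.TenA
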