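import Mathlib
import Pool.Agent.TenA.Err

set_option autoImplicit false

namespace Pool.TenA

open Finset

variable {G : Type*} [Fintype G] [AddCommGroup G] {m : ℕ}

theorem ev_cv (Y P φ : G → ℝ) : ev (cv Y P) φ = ev Y (Tr P φ) := by
  unfold ev cv Tr
  have h1 : ∀ z, (∑ x, Y x * P (z - x)) * φ z = ∑ x, Y x * (P (z - x) * φ z) := by
    intro z; rw [Finset.sum_mul]; exact Finset.sum_congr rfl (fun x _ => by ring)
  rw [Finset.sum_congr rfl (fun z _ => h1 z), Finset.sum_comm]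
  refine Finset.sum_congr rfl (fun x _ => ?_)
  rw [← Finset.mul_sum]
  congr 1
  rw [← sum_sub_right (fun t => P t * φ (x + t)) x]
  refine Finset.sum_congr rfl (fun z _ => ?_)
  rw [add_sub_cancel]

theorem avg_ev (X S Y φ : G → ℝ) :
    ∑ y : Fin m → G, W X S y * ev (cv Y (ac (nu X S y))) φ = ev Y (Tr (qq m X S) φ) := by
  have h1 : ∀ y : Fin m → G, W X S y * ev (cv Y (ac (nu X S y))) φ
      = ∑ z, Y z * ∑ t, (W X S y * ac (nu X S y) t) * φ (z + t) := by
    intro y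
    rw [ev_cv]
    unfold ev Tr
    rw [Finset.mul_sum]
    refine Finset.sum_congr rfl (fun z _ => ?_)
    rw [Finset.mul_sum, Finset.mul_sum, Finset.mul_sum]
    exact Finset.sum_congr rfl (fun t _ => by ring)
  rw [Finset.sum_congr rfl (fun y _ => h1 y), Finset.sum_comm]
  unfold ev
  refine Finset.sum_congr rfl (fun z _ => ?_)
  rw [← Finset.mul_sum]
  congr 1
  rw [Finset.sum_comm]
  unfold Tr qq
  refine Finset.sum_congr rfl (fun t _ => ?_)
  rw [Finset.sum_mul]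

theorem ev_comm (X Y f : G → ℝ) : ev Y (Fx X f) = ev X (Fx Y f) := by
  unfold ev Fx
  simp_rw [Finset.mul_sum]
  rw [Finset.sum_comm]
  refine Finset.sum_congr rfl (fun x _ => Finset.sum_congr rfl (fun z _ => ?_))
  rw [add_comm z x]; ring

/-- strict average -/
theorem lt_avg {ι : Type*} [Fintype ι] {w g : ι → ℝ} {B : ℝ} (hw : IsLaw w)
    (h : ∀ i, 0 < w i → B < g i) : B < ∑ i, w i * g i := by
  by_contra hcon
  push Not at hcon
  obtain ⟨i, hi, hgi⟩ := exists_le_avg hw.nonneg hw.sum_one hcon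
  exact absurd (h i hi) (not_lt.2 hgi)

theorem select_aux {X S F : G → ℝ} {b θ κ B : ℝ} (hX : IsLaw X) (hS : IsLaw S) (hθ : 0 ≤ θ)
    (hB : ∀ Y', IsLaw Y' → Bd Y' (Real.exp b) → ∀ y : Fin m → G, 0 < W X S y →
      B < θ * (De Y' - De (cv Y' (ac (nu X S y)))) + De (nu X S y) + κ * (1 - ev Y' F)) :
    ∀ k : ℕ, ∀ Y, IsLaw Y → Bd Y (Real.exp b) →
      ((k : ℝ) + 1) * B < θ * De Y + ((k : ℝ) + 1) * ∑ y : Fin m → G, W X S y * De (nu X S y)
        + κ * ∑ i ∈ Finset.range (k + 1), (1 - ev Y ((Tr (qq m X S))^[i] F)) := by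
  intro k
  have hWl := W_law (m := m) hX hS
  set E := ∑ y : Fin m → G, W X S y * De (nu X S y) with hE
  induction k with
  | zero =>
    intro Y hY hYb
    have h := lt_avg hWl (fun y hy => (hB Y hY hYb y hy).trans_le (by
      have : 0 ≤ De (cv Y (ac (nu X S y))) := De_nonneg (hY.cv (nu_law hX hS hy).ac)
      have h2 : θ * (De Y - De (cv Y (ac (nu X S y)))) ≤ θ * De Y :=
        mul_le_mul_of_nonneg_left (by linarith) hθ
      exact add_le_add (add_le_add h2 le_rfl) le_rfl :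
        _ ≤ θ * De Y + De (nu X S y) + κ * (1 - ev Y F)))
    have e : ∑ y : Fin m → G, W X S y * (θ * De Y + De (nu X S y) + κ * (1 - ev Y F))
        = θ * De Y + E + κ * (1 - ev Y F) := by
      have : ∀ y : Fin m → G, W X S y * (θ * De Y + De (nu X S y) + κ * (1 - ev Y F))
          = W X S y * (θ * De Y + κ * (1 - ev Y F)) + W X S y * De (nu X S y) := fun y => by ring
      rw [Finset.sum_congr rfl (fun y _ => this y), Finset.sum_add_distrib, ← Finset.sum_mul,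
        hWl.sum_one]
      ring
    rw [e] at h
    simpa using h
  | succ k ih =>
    intro Y hY hYb
    have h := lt_avg (B := ((k : ℝ) + 2) * B) hWl (g := fun y => θ * De Y + De (nu X S y) + κ * (1 - ev Y F)
      + ((k : ℝ) + 1) * E + κ * ∑ i ∈ Finset.range (k + 1),
        (1 - ev (cv Y (ac (nu X S y))) ((Tr (qq m X S))^[i] F))) (fun y hy => by
      have h1 := hB Y hY hYb y hy
      have h2 := ih (cv Y (ac (nu X S y))) (hY.cv (nu_law hX hS hy).ac)
        (Bd.cv_left hYb (nu_law hX hS hy).ac)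
      have h3 : θ * (De Y - De (cv Y (ac (nu X S y)))) = θ * De Y - θ * De (cv Y (ac (nu X S y))) := by
        ring
      rw [h3] at h1
      linarith)
    have e1 : ∀ y : Fin m → G, W X S y * (θ * De Y + De (nu X S y) + κ * (1 - ev Y F)
      + ((k : ℝ) + 1) * E + κ * ∑ i ∈ Finset.range (k + 1),
        (1 - ev (cv Y (ac (nu X S y))) ((Tr (qq m X S))^[i] F)))
        = W X S y * (θ * De Y + κ * (1 - ev Y F) + ((k : ℝ) + 1) * E + κ * (k + 1))
          + W X S y * De (nu X S y)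
          - κ * ∑ i ∈ Finset.range (k + 1), W X S y * ev (cv Y (ac (nu X S y))) ((Tr (qq m X S))^[i] F) := by
      intro y
      rw [Finset.sum_sub_distrib, Finset.sum_const, Finset.card_range, nsmul_eq_mul, mul_one,
        ← Finset.mul_sum]
      push_cast
      ring
    rw [Finset.sum_congr rfl (fun y _ => e1 y), Finset.sum_sub_distrib, Finset.sum_add_distrib,
      ← Finset.sum_mul, hWl.sum_one, one_mul, ← Finset.mul_sum, Finset.sum_comm] at h
    have e2 : ∀ i ∈ Finset.range (k + 1),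
        ∑ y : Fin m → G, W X S y * ev (cv Y (ac (nu X S y))) ((Tr (qq m X S))^[i] F)
          = ev Y ((Tr (qq m X S))^[i + 1] F) := by
      intro i _
      rw [avg_ev, Function.iterate_succ_apply']
    rw [Finset.sum_congr rfl e2] at h
    have e3 : ∑ i ∈ Finset.range (k + 1 + 1), (1 - ev Y ((Tr (qq m X S))^[i] F))
        = (k + 1) - ∑ i ∈ Finset.range (k + 1), ev Y ((Tr (qq m X S))^[i + 1] F) + (1 - ev Y F) := by
      rw [Finset.sum_range_succ', Finset.sum_sub_distrib, Finset.sum_const, Finset.card_range,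
        nsmul_eq_mul, mul_one]
      push_cast
      simp
    rw [e3]
    push_cast
    rw [← hE] at h
    calc ((k : ℝ) + 1 + 1) * B = ((k : ℝ) + 2) * B := by ring
      _ < _ := h
      _ = _ := by ring

theorem select {X S F Y : G → ℝ} {b θ κ e : ℝ} (hX : IsLaw X) (hS : IsLaw S) (hY : IsLaw Y)
    (hYb : Bd Y (Real.exp b)) (hθ : 0 ≤ θ) (hκ : 0 ≤ κ) (k : ℕ) (hk : 0 < k)
    (he : ∀ i < k, 1 - ev Y ((Tr (qq m X S))^[i] F) ≤ e) :
    ∃ Y', IsLaw Y' ∧ Bd Y' (Real.exp b) ∧ ∃ y : Fin m → G, 0 < W X S y ∧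
      θ * (De Y' - De (cv Y' (ac (nu X S y)))) + De (nu X S y) + κ * (1 - ev Y' F)
        ≤ θ * b / k + (∑ y : Fin m → G, W X S y * De (nu X S y)) + κ * e := by
  by_contra hcon
  push Not at hcon
  obtain ⟨k, rfl⟩ : ∃ k', k = k' + 1 := ⟨k - 1, by omega⟩
  have h := select_aux (θ := θ) (κ := κ) hX hS hθ (fun Y' h1 h2 y hy => hcon Y' h1 h2 y hy) k Y hY hYb
  have h1 : ∑ i ∈ Finset.range (k + 1), (1 - ev Y ((Tr (qq m X S))^[i] F)) ≤ ((k : ℝ) + 1) * e := by
    calc _ ≤ ∑ i ∈ Finset.range (k + 1), e :=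
          Finset.sum_le_sum (fun i hi => he i (Finset.mem_range.1 hi))
      _ = _ := by rw [Finset.sum_const, Finset.card_range, nsmul_eq_mul]; push_cast; ring
  have h2 := mul_le_mul_of_nonneg_left h1 hκ
  have h3 : θ * De Y ≤ θ * b := mul_le_mul_of_nonneg_left (De_le hY hYb) hθ
  have hkpos : (0 : ℝ) < (k : ℝ) + 1 := by positivity
  have e1 : ((k : ℝ) + 1) * (θ * b / ((k + 1 : ℕ) : ℝ) + (∑ y : Fin m → G, W X S y * De (nu X S y)) + κ * e)
      = θ * b + ((k : ℝ) + 1) * (∑ y : Fin m → G, W X S y * De (nu X S y)) + κ * (((k : ℝ) + 1) * e) := by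
    push_cast
    field_simp
  rw [e1] at h
  linarith

/-- the law after the steps `ns` -/
noncomputable def run (Y : G → ℝ) : List (G → ℝ) → (G → ℝ)
  | [] => Y
  | ν :: ns => run (cv Y (ac ν)) ns

theorem fsel {X S F : G → ℝ} {κ c : ℝ} (hX : IsLaw X) (hS : IsLaw S) :
    ∀ K : ℕ, ∀ Y, IsLaw Y → ∃ ns : List (G → ℝ), ns.length = K ∧ (∀ ν ∈ ns, IsLaw ν) ∧
      κ * (1 - ev (run Y ns) F) + c * (ns.map De).sum
        ≤ κ * (1 - ev Y ((Tr (qq m X S))^[K] F))
          + c * (K * ∑ y : Fin m → G, W X S y * De (nu X S y)) := by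
  intro K
  have hWl := W_law (m := m) hX hS
  induction K with
  | zero =>
    intro Y hY
    exact ⟨[], rfl, by simp, by simp [run]⟩
  | succ K ih =>
    intro Y hY
    set E := ∑ y : Fin m → G, W X S y * De (nu X S y) with hE
    have e1 : ∑ y : Fin m → G, W X S y * (κ * (1 - ev (cv Y (ac (nu X S y))) ((Tr (qq m X S))^[K] F))
        + c * De (nu X S y)) ≤ κ * (1 - ev Y ((Tr (qq m X S))^[K + 1] F)) + c * E := by
      refine le_of_eq ?_
      have : ∀ y : Fin m → G, W X S y * (κ * (1 - ev (cv Y (ac (nu X S y))) ((Tr (qq m X S))^[K] F))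
          + c * De (nu X S y)) = W X S y * κ - κ * (W X S y * ev (cv Y (ac (nu X S y))) ((Tr (qq m X S))^[K] F))
            + c * (W X S y * De (nu X S y)) := fun y => by ring
      rw [Finset.sum_congr rfl (fun y _ => this y), Finset.sum_add_distrib, Finset.sum_sub_distrib,
        ← Finset.mul_sum, ← Finset.mul_sum, avg_ev, ← Finset.sum_mul, hWl.sum_one,
        Function.iterate_succ_apply']
      ring
    obtain ⟨y, hy, hle⟩ := exists_le_avg hWl.nonneg hWl.sum_one e1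
    obtain ⟨ns, hlen, hlaw, hns⟩ := ih (cv Y (ac (nu X S y))) (hY.cv (nu_law hX hS hy).ac)
    refine ⟨nu X S y :: ns, by simp [hlen], ?_, ?_⟩
    · intro ν hν
      rcases List.mem_cons.1 hν with h | h
      · rw [h]; exact nu_law hX hS hy
      · exact hlaw ν h
    · simp only [run, List.map_cons, List.sum_cons]
      push_cast
      linarith

/-- error of the walk with well chosen parameters -/
theorem err_le {X S f Y : G → ℝ} {b δ : ℝ} {k M : ℕ} (hX : IsLaw X) (hS : IsLaw S) (hY : IsLaw Y)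
    (hYb : Bd Y (Real.exp b)) (h0 : ∀ x, 0 ≤ f x)
    (h1 : ∀ x, f x ≤ 1) (hk : 0 < k) (hM : 0 < M) (hδ : 0 < δ) (hMb : 8 * b ≤ M * δ ^ 2)
    (i : ℕ) (hi : i ≤ k) :
    1 - ev Y ((Tr (qq (k * M) X S))^[i] (Fx X f)) ≤ 1 - ev Y (Fx X f) + δ := by
  have hMR : (0 : ℝ) < M := by exact_mod_cast hM
  have hkR : (0 : ℝ) < k := by exact_mod_cast hk
  set l : ℝ := M * δ / 4 with hl
  have hlpos : 0 < l := by positivity
  have h := walk_exp (m := k * M) hX hS hY hYb h0 h1 (Nat.mul_pos hk hM) l i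
  have h2 : (i : ℝ) * (2 * l ^ 2 / ((k * M : ℕ) : ℝ)) ≤ 2 * l ^ 2 / M := by
    push_cast
    have h3 : (i : ℝ) ≤ k := by exact_mod_cast hi
    calc (i : ℝ) * (2 * l ^ 2 / (k * M)) ≤ k * (2 * l ^ 2 / (k * M)) :=
          mul_le_mul_of_nonneg_right h3 (by positivity)
      _ = _ := by field_simp
  have h4 : b + 2 * l ^ 2 / M ≤ l * δ := by
    have e1 : 2 * l ^ 2 / M = M * δ ^ 2 / 8 := by rw [hl]; field_simp; ring
    have e2 : l * δ = M * δ ^ 2 / 4 := by rw [hl]; ring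
    rw [e1, e2]; linarith
  have h5 : l * (ev Y (Fx X f) - ev Y ((Tr (qq (k * M) X S))^[i] (Fx X f))) ≤ l * δ := by linarith
  have h6 := le_of_mul_le_mul_left h5 hlpos
  linarith

/-- The iteration. -/
theorem iter {f : G → ℝ} (h0 : ∀ x, 0 ≤ f x) (h1 : ∀ x, f x ≤ 1) {δ κ c : ℝ} (hδ : 0 < δ)
    (hκ : 0 ≤ κ) :
    ∀ n : ℕ, ∀ (a b : ℝ) (Ma Mb k : ℕ) (X Y S : G → ℝ) (Φ : ℝ), 0 < Ma → 0 < Mb → 0 < k →
      8 * a ≤ Ma * δ ^ 2 → 8 * b ≤ Mb * δ ^ 2 → 2 * Ma * b ≤ c → 2 * Mb * a ≤ c →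
      IsLaw X → IsLaw Y → IsLaw S → Bd X (Real.exp a) → Bd Y (Real.exp b) →
      (2 * k * Mb) * (De X - De (cv X S)) + De S + κ * (1 - ev Y (Fx X f)) ≤ Φ →
      ∃ (X' Y' : G → ℝ) (ns : List (G → ℝ)), IsLaw X' ∧ IsLaw Y' ∧
        ((Bd X' (Real.exp a) ∧ Bd Y' (Real.exp b)) ∨ (Bd X' (Real.exp b) ∧ Bd Y' (Real.exp a))) ∧
        ns.length = 2 ^ (n + 1) * k ∧ (∀ ν ∈ ns, IsLaw ν) ∧
        κ * (1 - ev (run Y' ns) (Fx X' f)) + 1 / (2 ^ (n + 1) * k : ℝ) * (ns.map De).sum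
          ≤ Φ + n * c + (n + 1) * (κ * δ) := by
  intro n
  induction n with
  | zero =>
    intro a b Ma Mb k X Y S Φ hMa hMb hk ha hb hc1 hc2 hX hY hS hXb hYb hΦ
    have hkR : (0 : ℝ) < k := by exact_mod_cast hk
    obtain ⟨ns, hlen, hlaw, hns⟩ := fsel (m := (2 * k) * Mb) (F := Fx X f) (κ := κ)
      (c := 1 / (2 ^ (0 + 1) * k : ℝ)) hX hS (2 * k) Y hY
    refine ⟨X, Y, ns, hX, hY, Or.inl ⟨hXb, hYb⟩, by rw [hlen]; ring, hlaw, hns.trans ?_⟩
    have h2 := err_le hX hS hY hYb h0 h1 (show 0 < 2 * k by omega) hMb hδ hb (2 * k) le_rfl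
    have h3 := mul_le_mul_of_nonneg_left h2 hκ
    have h4 := cost (m := (2 * k) * Mb) hX hS
    have e1 : 1 / (2 ^ (0 + 1) * k : ℝ) * (((2 * k : ℕ) : ℝ) *
        ∑ y : Fin ((2 * k) * Mb) → G, W X S y * De (nu X S y))
        = ∑ y : Fin ((2 * k) * Mb) → G, W X S y * De (nu X S y) := by
      push_cast; field_simp
    rw [e1]
    push_cast at h4
    push_cast
    have e2 : κ * (1 - ev Y (Fx X f) + δ) = κ * (1 - ev Y (Fx X f)) + κ * δ := by ring
    rw [e2] at h3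
    linarith
  | succ n ih =>
    intro a b Ma Mb k X Y S Φ hMa hMb hk ha hb hc1 hc2 hX hY hS hXb hYb hΦ
    have hkR : (0 : ℝ) < k := by exact_mod_cast hk
    have hMaR : (0 : ℝ) < Ma := by exact_mod_cast hMa
    set θ : ℝ := 2 * ((2 * k : ℕ) : ℝ) * Ma with hθ
    have hθ0 : 0 ≤ θ := by positivity
    obtain ⟨Y', hY', hY'b, y, hy, hsel⟩ := select (m := (2 * k) * Mb) (F := Fx X f) (θ := θ) (κ := κ)
      (e := 1 - ev Y (Fx X f) + δ) hX hS hY hYb hθ0 hκ (2 * k) (by omega)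
      (fun i hi => err_le hX hS hY hYb h0 h1 (show 0 < 2 * k by omega) hMb hδ hb i hi.le)
    have hν : IsLaw (nu X S y) := nu_law hX hS hy
    have h4 := cost (m := (2 * k) * Mb) hX hS
    push_cast at h4
    have e1 : θ * b / ((2 * k : ℕ) : ℝ) = 2 * Ma * b := by
      rw [hθ]; push_cast; field_simp
    rw [e1] at hsel
    have e2 : κ * (1 - ev Y (Fx X f) + δ) = κ * (1 - ev Y (Fx X f)) + κ * δ := by ring
    rw [e2] at hsel
    have hmono : De (cv Y' (ac (nu X S y))) ≤ De (cv Y' (nu X S y)) := by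
      rw [ac_eq, ← cv_assoc]
      exact De_cv_le (hY'.cv hν) hν.rf
    have h5 : θ * (De Y' - De (cv Y' (nu X S y))) ≤ θ * (De Y' - De (cv Y' (ac (nu X S y)))) :=
      mul_le_mul_of_nonneg_left (by linarith) hθ0
    obtain ⟨X'', Y'', ns, hX'', hY'', hbd, hlen, hlaw, hfin⟩ := ih b a Mb Ma (2 * k) Y' X (nu X S y)
      (Φ + c + κ * δ) hMb hMa (by omega) hb ha hc2 hc1 hY' hX hν hY'b hXb (by
        rw [ev_comm Y' X f, ← hθ]
        linarith)
    refine ⟨X'', Y'', ns, hX'', hY'', hbd.symm, by rw [hlen]; ring, hlaw, ?_⟩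
    have e3 : (2 : ℝ) ^ (n + 1 + 1) * k = 2 ^ (n + 1) * ((2 * k : ℕ) : ℝ) := by
      push_cast; ring
    rw [e3]
    refine hfin.trans (le_of_eq ?_)
    push_cast
    ring

end Pool.TenA
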