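import Mathlib
import Pool.Agent.TenA.Stage

set_option autoImplicit false

namespace Pool.TenA

open Finset

variable {G : Type*} [Fintype G] [AddCommGroup G] [Module (ZMod 2) G]

abbrev D (G : Type*) [AddCommGroup G] [Module (ZMod 2) G] := Module.Dual (ZMod 2) G

noncomputable instance : Fintype (D G) :=
  @Fintype.ofFinite _ (Finite.of_injective (fun φ : D G => (φ : G → ZMod 2)) DFunLike.coe_injective)

/-- the character of a functional -/
noncomputable def chi (φ : D G) (x : G) : ℝ := if φ x = 0 then 1 else -1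

theorem zmod2 (a : ZMod 2) : a = 0 ∨ a = 1 := by
  revert a; decide

omit [Fintype G] in
theorem chi_add (φ : D G) (x y : G) : chi φ (x + y) = chi φ x * chi φ y := by
  unfold chi
  rw [map_add]
  rcases zmod2 (φ x) with h | h <;> rcases zmod2 (φ y) with h' | h' <;> rw [h, h'] <;>
    norm_num
  decide

omit [Fintype G] in
theorem chi_add_left (φ ψ : D G) (x : G) : chi (φ + ψ) x = chi φ x * chi ψ x := by
  unfold chi
  rw [LinearMap.add_apply]
  rcases zmod2 (φ x) with h | h <;> rcases zmod2 (ψ x) with h' | h' <;> rw [h, h'] <;>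
    norm_num
  decide

omit [Fintype G] in
theorem chi_zero (x : G) : chi (0 : D G) x = 1 := by simp [chi]

omit [Fintype G] in
theorem chi_zero_right (φ : D G) : chi φ 0 = 1 := by simp [chi]

omit [Fintype G] in
theorem chi_sq (φ : D G) (x : G) : chi φ x * chi φ x = 1 := by
  unfold chi; split_ifs <;> norm_num

omit [Fintype G] in
theorem chi_abs (φ : D G) (x : G) : |chi φ x| = 1 := by
  unfold chi; split_ifs <;> norm_num

omit [Fintype G] in
theorem add_self' (x : G) : x + x = 0 := by
  have : (2 : ZMod 2) • x = x + x := two_smul _ _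
  rw [← this, show (2 : ZMod 2) = 0 by decide, zero_smul]

omit [Fintype G] in
theorem neg_self' (x : G) : -x = x := neg_eq_of_add_eq_zero_left (add_self' x)

omit [Fintype G] in
theorem chi_sub (φ : D G) (x y : G) : chi φ (x - y) = chi φ x * chi φ y := by
  rw [sub_eq_add_neg, neg_self', chi_add]

theorem sum_chi (φ : D G) : ∑ x, chi φ x = if φ = 0 then (Fintype.card G : ℝ) else 0 := by
  split_ifs with h
  · subst h; simp [chi_zero]
  · obtain ⟨x0, hx0⟩ : ∃ x, φ x ≠ 0 := by
      by_contra hcon; push Not at hcon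
      exact h (LinearMap.ext hcon)
    have h1 : ∑ x, chi φ x = ∑ x, chi φ (x + x0) := (sum_add_right (chi φ) x0).symm
    have h2 : ∑ x, chi φ (x + x0) = - ∑ x, chi φ x := by
      rw [← Finset.sum_neg_distrib]
      refine Finset.sum_congr rfl (fun x _ => ?_)
      rw [chi_add]
      have : chi φ x0 = -1 := by unfold chi; rw [if_neg hx0]
      rw [this]; ring
    linarith

theorem card_D : Fintype.card (D G) = Fintype.card G := by
  have : Module.Finite (ZMod 2) G := Module.Finite.of_finite
  rw [Module.card_eq_pow_finrank (K := ZMod 2) (V := D G),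
    Module.card_eq_pow_finrank (K := ZMod 2) (V := G), Subspace.dual_finrank_eq]

open Classical in
theorem sum_chi_dual (x : G) : ∑ φ : D G, chi φ x = if x = 0 then (Fintype.card G : ℝ) else 0 := by
  split_ifs with h
  · subst h
    simp [chi_zero_right, card_D]
  · obtain ⟨φ0, hφ0⟩ : ∃ φ : D G, φ x ≠ 0 := by
      by_contra hcon; push Not at hcon
      exact h ((Module.forall_dual_apply_eq_zero_iff (ZMod 2) x).1 hcon)
    have h1 : ∑ φ : D G, chi φ x = ∑ φ : D G, chi (φ + φ0) x :=
      (Fintype.sum_equiv (Equiv.addRight φ0) _ _ (fun φ => by simp)).symm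
    have h2 : ∑ φ : D G, chi (φ + φ0) x = - ∑ φ : D G, chi φ x := by
      rw [← Finset.sum_neg_distrib]
      refine Finset.sum_congr rfl (fun φ _ => ?_)
      rw [chi_add_left]
      have : chi φ0 x = -1 := by unfold chi; rw [if_neg hφ0]
      rw [this]; ring
    linarith

/-- Fourier transform -/
noncomputable def hat (p : G → ℝ) (φ : D G) : ℝ := ∑ x, p x * chi φ x

theorem hat_cv (p q : G → ℝ) (φ : D G) : hat (cv p q) φ = hat p φ * hat q φ := by
  unfold hat cv
  have h1 : ∀ z, (∑ x, p x * q (z - x)) * chi φ z = ∑ x, (p x * chi φ x) * (q (z - x) * chi φ (z - x)) := by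
    intro z
    rw [Finset.sum_mul]
    refine Finset.sum_congr rfl (fun x _ => ?_)
    rw [chi_sub]
    have := chi_sq φ x
    calc p x * q (z - x) * chi φ z = p x * q (z - x) * chi φ z * 1 := by ring
      _ = p x * q (z - x) * chi φ z * (chi φ x * chi φ x) := by rw [this]
      _ = _ := by ring
  rw [Finset.sum_congr rfl (fun z _ => h1 z), Finset.sum_comm, Finset.sum_mul]
  refine Finset.sum_congr rfl (fun x _ => ?_)
  rw [← Finset.mul_sum]
  congr 1
  exact sum_sub_right (fun z => q z * chi φ z) x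

theorem hat_rf (p : G → ℝ) (φ : D G) : hat (rf p) φ = hat p φ := by
  unfold hat rf
  simp_rw [neg_self']

theorem hat_ac (p : G → ℝ) (φ : D G) : hat (ac p) φ = hat p φ ^ 2 := by
  rw [ac_eq, hat_cv, hat_rf, sq]

theorem hat_abs_le {p : G → ℝ} (hp : IsLaw p) (φ : D G) : |hat p φ| ≤ 1 := by
  unfold hat
  calc |∑ x, p x * chi φ x| ≤ ∑ x, |p x * chi φ x| := Finset.abs_sum_le_sum_abs _ _
    _ = ∑ x, p x := Finset.sum_congr rfl (fun x _ => by
        rw [abs_mul, chi_abs, mul_one, abs_of_nonneg (hp.nonneg x)])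
    _ = 1 := hp.sum_one

theorem parseval (p : G → ℝ) : ∑ φ : D G, hat p φ ^ 2 = Fintype.card G * ∑ x, p x ^ 2 := by
  classical
  have h1 : ∀ φ : D G, hat p φ ^ 2 = ∑ x, ∑ y, p x * p y * chi φ (x - y) := by
    intro φ
    unfold hat
    rw [sq, Finset.sum_mul_sum]
    refine Finset.sum_congr rfl (fun x _ => Finset.sum_congr rfl (fun y _ => ?_))
    rw [chi_sub]; ring
  rw [Finset.sum_congr rfl (fun φ _ => h1 φ), Finset.sum_comm, Finset.mul_sum]
  refine Finset.sum_congr rfl (fun x _ => ?_)
  rw [Finset.sum_comm]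
  have h2 : ∀ y, ∑ φ : D G, p x * p y * chi φ (x - y)
      = if y = x then p x * p y * (Fintype.card G : ℝ) else 0 := by
    intro y
    rw [← Finset.mul_sum, sum_chi_dual]
    by_cases h : y = x
    · simp [h]
    · rw [if_neg (fun h0 => h (sub_eq_zero.1 h0).symm), if_neg h, mul_zero]
  rw [Finset.sum_congr rfl (fun y _ => h2 y), Finset.sum_ite_eq' Finset.univ x]
  simp; ring

theorem log_lower {t : ℝ} (h1 : -(1 / 2) ≤ t) : t - t ^ 2 ≤ Real.log (1 + t) := by
  rcases le_total 0 t with h | h
  · have h2 : 1 - (1 + t)⁻¹ ≤ Real.log (1 + t) :=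
      Real.one_sub_inv_le_log_of_pos (by linarith)
    have h3 : t - t ^ 2 ≤ 1 - (1 + t)⁻¹ := by
      have hp : 0 < 1 + t := by linarith
      have : 1 - (1 + t)⁻¹ = t / (1 + t) := by field_simp; ring
      rw [this, le_div_iff₀ hp]
      nlinarith [pow_nonneg h 3]
    linarith
  · obtain ⟨u, rfl⟩ : ∃ u, t = -u := ⟨-t, by ring⟩
    have hu0 : 0 ≤ u := by linarith
    have hu1 : u ≤ 1 / 2 := by linarith
    rw [Real.le_log_iff_exp_le (by linarith)]
    have h4 := Real.quadratic_le_exp_of_nonneg (x := u + u ^ 2) (by positivity)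
    have h5 : 1 ≤ (1 + -u) * (1 + (u + u ^ 2) + (u + u ^ 2) ^ 2 / 2) := by
      have h6 : (1 + -u) * (1 + (u + u ^ 2) + (u + u ^ 2) ^ 2 / 2)
          = 1 + u ^ 2 / 2 * (1 - u - u ^ 2 - u ^ 3) := by ring
      rw [h6]
      have h7 : 0 ≤ 1 - u - u ^ 2 - u ^ 3 := by
        have h8 : u ^ 2 ≤ 1 / 4 := by nlinarith
        have h9 : u ^ 3 ≤ 1 / 8 := by
          have : u ^ 3 = u * u ^ 2 := by ring
          rw [this]; nlinarith
        linarith
      nlinarith [sq_nonneg u, mul_nonneg (sq_nonneg u) h7]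
    have h10 : 1 ≤ (1 + -u) * Real.exp (u + u ^ 2) :=
      h5.trans (mul_le_mul_of_nonneg_left h4 (by linarith))
    have e : -u - (-u) ^ 2 = -(u + u ^ 2) := by ring
    rw [e, Real.exp_neg, inv_le_comm₀ (Real.exp_pos _) (by linarith)]
    rw [inv_le_iff_one_le_mul₀ (by linarith)]
    linarith

/-- The entropy form of Chang's inequality. -/
theorem chang {ι : Type*} [Fintype ι] {ν : G → ℝ} (hν : IsLaw ν) (g : ι → D G)
    (hg : LinearIndependent (ZMod 2) g) : ∑ i, hat ν (g i) ^ 2 ≤ 4 * De ν := by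
  classical
  set N : ℝ := (Fintype.card G : ℝ) with hN
  have hNpos : 0 < N := card_pos'
  set bb : ι → ℝ := fun i => hat ν (g i) / 2 with hbb
  have hb : ∀ i, |bb i| ≤ 1 / 2 := by
    intro i
    have := hat_abs_le hν (g i)
    rw [hbb]; simp only
    rw [abs_div, abs_two]; linarith
  have hbc : ∀ i x, |bb i * chi (g i) x| ≤ 1 / 2 := by
    intro i x; rw [abs_mul, chi_abs, mul_one]; exact hb i
  have hpos : ∀ i x, 0 < 1 + bb i * chi (g i) x := by
    intro i x; have := abs_le.1 (hbc i x); linarith [this.1]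
  set R : G → ℝ := fun x => (∏ i, (1 + bb i * chi (g i) x)) / N with hR
  have hRpos : ∀ x, 0 < R x := fun x => div_pos (Finset.prod_pos (fun i _ => hpos i x)) hNpos
  -- product over subsets
  have hprodchi : ∀ (t : Finset ι) (x : G), ∏ i ∈ t, chi (g i) x = chi (∑ i ∈ t, g i) x := by
    intro t x
    induction t using Finset.induction_on with
    | empty => simp [chi_zero]
    | insert a s ha ih => rw [Finset.prod_insert ha, Finset.sum_insert ha, chi_add_left, ih]
  have hne : ∀ t : Finset ι, t.Nonempty → ∑ i ∈ t, g i ≠ 0 := by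
    intro t ht h0
    have h1 := linearIndependent_iff'.1 hg t (fun _ => 1) (by simpa using h0)
    obtain ⟨i, hi⟩ := ht
    exact one_ne_zero (h1 i hi)
  have hsumR : ∑ x, R x = 1 := by
    rw [hR]
    simp only
    rw [← Finset.sum_div]
    have e1 : ∀ x, ∏ i, (1 + bb i * chi (g i) x)
        = ∑ t ∈ (Finset.univ : Finset ι).powerset, (∏ i ∈ t, bb i) * chi (∑ i ∈ t, g i) x := by
      intro x
      rw [Finset.prod_one_add]
      refine Finset.sum_congr rfl (fun t _ => ?_)
      rw [Finset.prod_mul_distrib, hprodchi]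
    rw [Finset.sum_congr rfl (fun x _ => e1 x), Finset.sum_comm]
    have e2 : ∀ t ∈ (Finset.univ : Finset ι).powerset,
        ∑ x, (∏ i ∈ t, bb i) * chi (∑ i ∈ t, g i) x = if t = ∅ then N else 0 := by
      intro t _
      rw [← Finset.mul_sum, sum_chi]
      by_cases ht : t = ∅
      · subst ht; simp [hN]
      · rw [if_neg (hne t (Finset.nonempty_iff_ne_empty.2 ht)), if_neg ht, mul_zero]
    rw [Finset.sum_congr rfl e2, Finset.sum_ite_eq']
    rw [if_pos (Finset.empty_mem_powerset _), div_self hNpos.ne']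
  have hgib := gibbs (p := ν) (q := R) hν.nonneg (fun x => (hRpos x).le)
    (by rw [hsumR, hν.sum_one]) (fun x hx => absurd hx (hRpos x).ne')
  rw [De_eq hν]
  -- lower bound for ∑ ν log R
  have hlog : ∀ x, ∑ i, (bb i * chi (g i) x - bb i ^ 2) - Real.log N ≤ Real.log (R x) := by
    intro x
    rw [hR]
    simp only
    rw [Real.log_div (Finset.prod_ne_zero_iff.2 (fun i _ => (hpos i x).ne')) hNpos.ne',
      Real.log_prod (fun i _ => (hpos i x).ne')]
    have : ∀ i, bb i * chi (g i) x - bb i ^ 2 ≤ Real.log (1 + bb i * chi (g i) x) := by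
      intro i
      set t := bb i * chi (g i) x with ht
      have ht2 : bb i ^ 2 = t ^ 2 := by
        rw [ht, mul_pow]
        have := chi_sq (g i) x
        rw [sq (chi (g i) x), this, mul_one]
      have habs := abs_le.1 (hbc i x)
      rw [ht2]
      exact log_lower habs.1
    have h3 := Finset.sum_le_sum (fun i (_ : i ∈ (Finset.univ : Finset ι)) => this i)
    linarith
  have hlow : ∑ i, hat ν (g i) ^ 2 / 4 - Real.log N ≤ ∑ x, ν x * Real.log (R x) := by
    have h1 : ∑ x, ν x * (∑ i, (bb i * chi (g i) x - bb i ^ 2) - Real.log N)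
        ≤ ∑ x, ν x * Real.log (R x) :=
      Finset.sum_le_sum (fun x _ => mul_le_mul_of_nonneg_left (hlog x) (hν.nonneg x))
    refine le_trans (le_of_eq ?_) h1
    have e1 : ∀ x, ν x * (∑ i, (bb i * chi (g i) x - bb i ^ 2) - Real.log N)
        = ∑ i, (bb i * (ν x * chi (g i) x) - bb i ^ 2 * ν x) - Real.log N * ν x := by
      intro x
      rw [mul_sub, Finset.mul_sum]
      congr 1
      · exact Finset.sum_congr rfl (fun i _ => by ring)
      · ring
    rw [Finset.sum_congr rfl (fun x _ => e1 x), Finset.sum_sub_distrib, Finset.sum_comm,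
      ← Finset.mul_sum, hν.sum_one, mul_one]
    congr 1
    refine Finset.sum_congr rfl (fun i _ => ?_)
    rw [Finset.sum_sub_distrib, ← Finset.mul_sum, ← Finset.mul_sum, hν.sum_one]
    have : ∑ x, ν x * chi (g i) x = hat ν (g i) := rfl
    rw [this, hbb]
    simp only
    ring
  rw [← Finset.sum_div] at hlow
  rw [← hN]
  linarith

end Pool.TenA
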