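import Mathlib
import Pool.Agent.TenA.Four

set_option autoImplicit false

namespace Pool.TenA

open Finset

variable {G : Type*} [Fintype G] [AddCommGroup G] [Module (ZMod 2) G]

omit [Module (ZMod 2) G] in
theorem run_law {Y : G → ℝ} (hY : IsLaw Y) (ns : List (G → ℝ)) (h : ∀ ν ∈ ns, IsLaw ν) :
    IsLaw (run Y ns) := by
  induction ns generalizing Y with
  | nil => exact hY
  | cons ν ns ih =>
    exact ih (hY.cv (h ν (by simp)).ac) (fun ν' h' => h ν' (List.mem_cons_of_mem _ h'))

theorem hat_run (Y : G → ℝ) (ns : List (G → ℝ)) (φ : D G) :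
    hat (run Y ns) φ = hat Y φ * (ns.map (fun ν => hat ν φ ^ 2)).prod := by
  induction ns generalizing Y with
  | nil => simp [run]
  | cons ν ns ih =>
    rw [run, ih, hat_cv, hat_ac, List.map_cons, List.prod_cons]; ring

theorem prod_le_exp (l : List ℝ) (h : ∀ x ∈ l, 0 ≤ x) :
    0 ≤ l.prod ∧ l.prod ≤ Real.exp (l.sum - l.length) := by
  induction l with
  | nil => simp
  | cons x l ih =>
    obtain ⟨h1, h2⟩ := ih (fun y hy => h y (List.mem_cons_of_mem _ hy))
    have hx := h x (by simp)
    refine ⟨by rw [List.prod_cons]; exact mul_nonneg hx h1, ?_⟩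
    rw [List.prod_cons, List.sum_cons, List.length_cons]
    have h3 : x ≤ Real.exp (x - 1) := by
      have := Real.add_one_le_exp (x - 1); linarith
    calc x * l.prod ≤ Real.exp (x - 1) * Real.exp (l.sum - l.length) :=
          mul_le_mul h3 h2 h1 (Real.exp_pos _).le
      _ = _ := by rw [← Real.exp_add]; congr 1; push_cast; ring

/-- uniform law on a submodule -/
noncomputable def uW (W : Submodule (ZMod 2) G) : G → ℝ := by
  classical exact fun x => if x ∈ W then (1 : ℝ) / Nat.card W else 0

theorem card_W_pos (W : Submodule (ZMod 2) G) : (0 : ℝ) < Nat.card W := by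
  exact_mod_cast Nat.card_pos

theorem uW_law (W : Submodule (ZMod 2) G) : IsLaw (uW W) := by
  classical
  refine ⟨fun x => by unfold uW; split_ifs; exact (div_pos one_pos (card_W_pos W)).le; exact le_rfl, ?_⟩
  unfold uW
  rw [← Finset.sum_filter, Finset.sum_const, nsmul_eq_mul]
  have : (Finset.univ.filter (fun x => x ∈ W)).card = Nat.card W := by
    rw [Nat.card_eq_fintype_card, Fintype.card_subtype]
  rw [this, mul_one_div_cancel (card_W_pos W).ne']

omit [Fintype G] in
theorem uW_add (W : Submodule (ZMod 2) G) (x w : G) (hw : w ∈ W) : uW W (x + w) = uW W x := by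
  unfold uW
  rw [Submodule.add_mem_iff_left W hw]

theorem hat_uW_one (W : Submodule (ZMod 2) G) (φ : D G) (h : ∀ w ∈ W, φ w = 0) :
    hat (uW W) φ = 1 := by
  rw [← (uW_law W).sum_one]
  unfold hat
  refine Finset.sum_congr rfl (fun x _ => ?_)
  by_cases hx : x ∈ W
  · have : chi φ x = 1 := by unfold chi; rw [if_pos (h x hx)]
    rw [this, mul_one]
  · have : uW W x = 0 := by unfold uW; rw [if_neg hx]
    rw [this, zero_mul]

theorem hat_uW_zero (W : Submodule (ZMod 2) G) (φ : D G) (w : G) (hw : w ∈ W) (h : φ w ≠ 0) :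
    hat (uW W) φ = 0 := by
  have h1 : hat (uW W) φ = ∑ x, uW W (x + w) * chi φ (x + w) :=
    (sum_add_right (fun x => uW W x * chi φ x) w).symm
  have h2 : ∑ x, uW W (x + w) * chi φ (x + w) = - hat (uW W) φ := by
    unfold hat
    rw [← Finset.sum_neg_distrib]
    refine Finset.sum_congr rfl (fun x _ => ?_)
    rw [uW_add W x w hw, chi_add]
    have : chi φ w = -1 := by unfold chi; rw [if_neg h]
    rw [this]; ring
  linarith

/-- Final step: from a long walk to a subspace. -/
theorem final {f X Y : G → ℝ} {ns : List (G → ℝ)} {e : ℝ} (hf : ∀ x, f x = 0 ∨ f x = 1)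
    (hX : IsLaw X) (hY : IsLaw Y) (hns : ∀ ν ∈ ns, IsLaw ν) (hlen : 0 < ns.length)
    (hbd : Bd X (Real.exp e) ∨ Bd Y (Real.exp e)) (he : e + 5 ≤ ns.length)
    (hmass : 1 - ev (run Y ns) (Fx X f) ≤ 1 / 16) :
    ∃ W : Submodule (ZMod 2) G,
      (Module.finrank (ZMod 2) G : ℝ) ≤ Module.finrank (ZMod 2) W
        + 8 * (1 / (ns.length : ℝ) * (ns.map De).sum) ∧
      ∀ w ∈ W, ∃ u v, f u = 1 ∧ f v = 1 ∧ w = u + v := by
  classical
  have hfin : Module.Finite (ZMod 2) G := Module.Finite.of_finite
  set K : ℝ := (ns.length : ℝ) with hK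
  have hKpos : 0 < K := by rw [hK]; exact_mod_cast hlen
  set Λ : Set (D G) := {φ | K / 2 ≤ (ns.map (fun ν => hat ν φ ^ 2)).sum} with hΛ
  obtain ⟨b, hbΛ, hbspan, hbli⟩ := exists_linearIndependent (ZMod 2) Λ
  set W := (Submodule.span (ZMod 2) Λ).dualCoannihilator with hW
  have hdim := Subspace.finrank_add_finrank_dualCoannihilator_eq (K := ZMod 2) (V := G)
    (Submodule.span (ZMod 2) Λ)
  have hbfin : Fintype b := Fintype.ofFinite b
  have hrank : Module.finrank (ZMod 2) (Submodule.span (ZMod 2) Λ) = Fintype.card b := by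
    rw [← hbspan]
    have := finrank_span_eq_card hbli
    rw [Subtype.range_coe] at this
    exact this
  have hr : (Fintype.card b : ℝ) ≤ 8 * (1 / K * (ns.map De).sum) := by
    have h1 : (Fintype.card b : ℝ) * (K / 2) ≤ ∑ φ : b, (ns.map (fun ν => hat ν (φ : D G) ^ 2)).sum := by
      rw [← nsmul_eq_mul, ← Finset.card_univ, ← Finset.sum_const]
      exact Finset.sum_le_sum (fun φ _ => hbΛ φ.2)
    have h2 : ∀ l : List (G → ℝ), (∀ ν ∈ l, IsLaw ν) →
        ∑ φ : b, (l.map (fun ν => hat ν (φ : D G) ^ 2)).sum ≤ 4 * (l.map De).sum := by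
      intro l
      induction l with
      | nil => intro _; simp
      | cons ν l ih =>
        intro hl
        simp only [List.map_cons, List.sum_cons, Finset.sum_add_distrib]
        have h3 := ih (fun ν' h' => hl ν' (List.mem_cons_of_mem _ h'))
        have h4 := chang (hl ν (by simp)) (fun φ : b => (φ : D G)) hbli
        linarith
    have h5 := h1.trans (h2 ns hns)
    rw [show 8 * (1 / K * (ns.map De).sum) = (4 * (ns.map De).sum) * 2 / K by ring,
      le_div_iff₀ hKpos]
    linarith
  refine ⟨W, ?_, ?_⟩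
  · rw [hrank] at hdim
    have : (Module.finrank (ZMod 2) G : ℝ) = Fintype.card b + Module.finrank (ZMod 2) W := by
      exact_mod_cast hdim.symm
    rw [this]; linarith
  · -- Fourier
    set N : ℝ := (Fintype.card G : ℝ) with hN
    have hNpos : 0 < N := card_pos'
    set μ := cv X (run Y ns) with hμ
    have hRl := run_law hY ns hns
    have hμl : IsLaw μ := hX.cv hRl
    have hmass2 : ev (run Y ns) (Fx X f) = ∑ w, μ w * f w := by
      have h1 := ev_cv X (run Y ns) f
      have h2 : ev X (Tr (run Y ns) f) = ev (run Y ns) (Fx X f) := by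
        rw [ev_comm]
        rfl
      rw [← h2, ← h1]; rfl
    set h : G → ℝ := fun z => μ z - cv μ (uW W) z with hh
    have hhat : ∀ φ, hat h φ = hat μ φ * (1 - hat (uW W) φ) := by
      intro φ
      have : hat h φ = hat μ φ - hat (cv μ (uW W)) φ := by
        unfold hat
        rw [← Finset.sum_sub_distrib]
        exact Finset.sum_congr rfl (fun x _ => by rw [hh]; ring)
      rw [this, hat_cv μ (uW W)]; ring
    have hZ : ∀ Z : G → ℝ, IsLaw Z → Bd Z (Real.exp e) →
        (∀ φ, |hat μ φ| ≤ |hat Z φ| * (ns.map (fun ν => hat ν φ ^ 2)).prod) →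
        (∑ w, h w * f w) ^ 2 ≤ 1 / 64 := by
      intro Z hZl hZb hZμ
      have h1 : ∀ φ : D G, hat h φ ^ 2 ≤ Real.exp (-K) * hat Z φ ^ 2 := by
        intro φ
        rw [hhat]
        by_cases hv : ∀ w ∈ W, φ w = 0
        · rw [hat_uW_one W φ hv]
          simp only [sub_self, mul_zero, ne_eq, OfNat.ofNat_ne_zero, not_false_eq_true, zero_pow]
          positivity
        · push Not at hv
          obtain ⟨w, hw, hφw⟩ := hv
          rw [hat_uW_zero W φ w hw hφw, sub_zero, mul_one]
          have hnot : φ ∉ Λ := by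
            intro hmem
            rw [hW, Submodule.mem_dualCoannihilator] at hw
            exact hφw (hw φ (Submodule.subset_span hmem))
          have hlt : (ns.map (fun ν => hat ν φ ^ 2)).sum < K / 2 := by
            rw [hΛ, Set.mem_ofPred_eq] at hnot
            exact not_le.1 hnot
          obtain ⟨hp0, hp1⟩ := prod_le_exp (ns.map (fun ν => hat ν φ ^ 2)) (by
            intro x hx
            obtain ⟨ν, _, rfl⟩ := List.mem_map.1 hx
            exact sq_nonneg _)
          rw [List.length_map, ← hK] at hp1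
          have hp2 : (ns.map (fun ν => hat ν φ ^ 2)).prod ≤ Real.exp (-K / 2) :=
            hp1.trans (Real.exp_le_exp.2 (by linarith))
          have h3 : |hat μ φ| ≤ |hat Z φ| * Real.exp (-K / 2) :=
            (hZμ φ).trans (mul_le_mul_of_nonneg_left hp2 (abs_nonneg _))
          calc hat μ φ ^ 2 = |hat μ φ| ^ 2 := (sq_abs _).symm
            _ ≤ (|hat Z φ| * Real.exp (-K / 2)) ^ 2 := pow_le_pow_left₀ (abs_nonneg _) h3 2
            _ = _ := by
              rw [mul_pow, sq_abs, ← Real.exp_nat_mul]
              rw [show ((2 : ℕ) : ℝ) * (-K / 2) = -K by push_cast; ring]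
              ring
      have h2 : N * ∑ w, h w ^ 2 ≤ Real.exp (-K) * Real.exp e := by
        rw [← parseval]
        calc ∑ φ : D G, hat h φ ^ 2 ≤ ∑ φ : D G, Real.exp (-K) * hat Z φ ^ 2 :=
              Finset.sum_le_sum (fun φ _ => h1 φ)
          _ = Real.exp (-K) * (N * ∑ x, Z x ^ 2) := by rw [← Finset.mul_sum, parseval]
          _ ≤ Real.exp (-K) * Real.exp e := by
              refine mul_le_mul_of_nonneg_left ?_ (Real.exp_pos _).le
              rw [Finset.mul_sum]
              calc ∑ x, N * Z x ^ 2 = ∑ x, (N * Z x) * Z x := Finset.sum_congr rfl (fun x _ => by ring)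
                _ ≤ ∑ x, Real.exp e * Z x :=
                    Finset.sum_le_sum (fun x _ => mul_le_mul_of_nonneg_right (hZb x) (hZl.nonneg x))
                _ = Real.exp e := by rw [← Finset.mul_sum, hZl.sum_one, mul_one]
      have h3 : (∑ w, h w * f w) ^ 2 ≤ (∑ w, h w ^ 2) * ∑ w, f w ^ 2 :=
        Finset.sum_mul_sq_le_sq_mul_sq _ _ _
      have h4 : ∑ w, f w ^ 2 ≤ N := by
        calc ∑ w, f w ^ 2 ≤ ∑ w : G, (1 : ℝ) :=
              Finset.sum_le_sum (fun w _ => by rcases hf w with h | h <;> rw [h] <;> norm_num)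
          _ = N := by simp [hN]
      have h5 : (∑ w, h w ^ 2) * ∑ w, f w ^ 2 ≤ N * ∑ w, h w ^ 2 := by
        rw [mul_comm]
        exact mul_le_mul_of_nonneg_right h4 (Finset.sum_nonneg (fun _ _ => sq_nonneg _))
      have h6 : Real.exp (-K) * Real.exp e ≤ 1 / 64 := by
        rw [← Real.exp_add]
        calc Real.exp (-K + e) ≤ Real.exp (-5) := Real.exp_le_exp.2 (by linarith)
          _ ≤ 1 / 64 := by
            rw [Real.exp_neg, inv_eq_one_div]
            refine one_div_le_one_div_of_le (by norm_num) ?_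
            have h8 : Real.exp 5 = Real.exp 1 ^ 5 := by rw [← Real.exp_nat_mul]; norm_num
            rw [h8]
            have h9 := Real.exp_one_gt_d9
            have h10 : (2.7 : ℝ) ≤ Real.exp 1 := by linarith
            calc (64 : ℝ) ≤ 2.7 ^ 5 := by norm_num
              _ ≤ _ := pow_le_pow_left₀ (by norm_num) h10 5
      linarith
    have hdiff : (∑ w, h w * f w) ^ 2 ≤ 1 / 64 := by
      have hprodnn : ∀ φ : D G, 0 ≤ (ns.map (fun ν => hat ν φ ^ 2)).prod := fun φ =>
        (prod_le_exp (ns.map (fun ν => hat ν φ ^ 2)) (by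
            intro x hx
            obtain ⟨ν, _, rfl⟩ := List.mem_map.1 hx
            exact sq_nonneg _)).1
      rcases hbd with hb | hb
      · refine hZ X hX hb (fun φ => ?_)
        rw [hμ, hat_cv, hat_run, abs_mul, abs_mul, abs_of_nonneg (hprodnn φ)]
        refine mul_le_mul_of_nonneg_left ?_ (abs_nonneg _)
        exact mul_le_of_le_one_left (hprodnn φ) (hat_abs_le hY φ)
      · refine hZ Y hY hb (fun φ => ?_)
        rw [hμ, hat_cv, hat_run, abs_mul, abs_mul, abs_of_nonneg (hprodnn φ), ← mul_assoc]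
        refine mul_le_mul_of_nonneg_right ?_ (hprodnn φ)
        exact mul_le_of_le_one_left (abs_nonneg _) (hat_abs_le hX φ)
    have hdiff2 : ∑ w, h w * f w ≤ 1 / 8 := by
      by_contra hcon
      push Not at hcon
      nlinarith
    have hsmooth : 13 / 16 ≤ ∑ w, cv μ (uW W) w * f w := by
      have h1 : ∑ w, h w * f w = ∑ w, μ w * f w - ∑ w, cv μ (uW W) w * f w := by
        rw [← Finset.sum_sub_distrib]
        exact Finset.sum_congr rfl (fun x _ => by rw [hh]; ring)
      rw [hmass2] at hmass
      linarith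
    -- a good coset
    have hex : ∃ z, 13 / 16 ≤ ∑ v, uW W v * f (z + v) := by
      have h1 : ∑ w, cv μ (uW W) w * f w = ∑ z, μ z * ∑ v, uW W v * f (z + v) := ev_cv μ (uW W) f
      rw [h1] at hsmooth
      by_contra hcon
      push Not at hcon
      have := lt_avg (B := -(13/16)) hμl (g := fun z => -∑ v, uW W v * f (z + v)) (fun z _ => by
        have := hcon z; linarith)
      have h2 : ∑ z, μ z * -∑ v, uW W v * f (z + v) = -∑ z, μ z * ∑ v, uW W v * f (z + v) := by
        rw [← Finset.sum_neg_distrib]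
        exact Finset.sum_congr rfl (fun z _ => by ring)
      rw [h2] at this
      linarith
    obtain ⟨z, hz⟩ := hex
    intro w hw
    by_contra hcon
    push Not at hcon
    have hall : ∀ v, f (z + v) + f (z + (v + w)) ≤ 1 := by
      intro v
      rcases hf (z + v) with h1 | h1
      · rcases hf (z + (v + w)) with h2 | h2 <;> rw [h1, h2] <;> norm_num
      · rcases hf (z + (v + w)) with h2 | h2
        · rw [h1, h2]; norm_num
        · exfalso
          refine hcon (z + v) (z + (v + w)) h1 h2 ?_
          have : z + v + (z + (v + w)) = (z + z) + (v + v) + w := by abel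
          rw [this, add_self', add_self', zero_add, zero_add]
    have hsum : ∑ v, uW W v * (f (z + v) + f (z + (v + w))) ≤ 1 := by
      calc _ ≤ ∑ v, uW W v * 1 := Finset.sum_le_sum (fun v _ =>
            mul_le_mul_of_nonneg_left (hall v) ((uW_law W).nonneg v))
        _ = 1 := by simp [(uW_law W).sum_one]
    have hshift : ∑ v, uW W v * f (z + (v + w)) = ∑ v, uW W v * f (z + v) := by
      rw [← sum_add_right (fun v => uW W v * f (z + v)) w]
      exact Finset.sum_congr rfl (fun v _ => by rw [uW_add W v w hw])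
    simp_rw [mul_add, Finset.sum_add_distrib] at hsum
    rw [hshift] at hsum
    linarith

end Pool.TenA
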