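import Mathlib
import Pool.Agent.TenA.Fin

set_option autoImplicit false

namespace Pool.TenA

open Finset

variable {G : Type*} [Fintype G] [AddCommGroup G] [Module (ZMod 2) G]

/-- uniform law on a finite set -/
noncomputable def uA (A : Finset G) : G → ℝ := by
  classical exact fun x => if x ∈ A then (1 : ℝ) / A.card else 0

omit [Module (ZMod 2) G] in
theorem uA_law (A : Finset G) (hA : A.Nonempty) : IsLaw (uA A) := by
  classical
  have hc : (0 : ℝ) < A.card := by exact_mod_cast hA.card_pos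
  refine ⟨fun x => by unfold uA; split_ifs; exact (div_pos one_pos hc).le; exact le_rfl, ?_⟩
  unfold uA
  rw [← Finset.sum_filter, Finset.sum_const, nsmul_eq_mul]
  have : Finset.univ.filter (fun x => x ∈ A) = A := by ext x; simp
  rw [this, mul_one_div_cancel hc.ne']

omit [Module (ZMod 2) G] in
theorem uA_bd (A : Finset G) (hA : A.Nonempty) :
    Bd (uA A) (Real.exp (Real.log ((Fintype.card G : ℝ) / A.card))) := by
  classical
  have hc : (0 : ℝ) < A.card := by exact_mod_cast hA.card_pos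
  rw [Real.exp_log (div_pos card_pos' hc)]
  intro x
  unfold uA
  split_ifs
  · rw [mul_one_div]
  · rw [mul_zero]; exact (div_pos card_pos' hc).le

/-- uniform law on the whole group -/
noncomputable def uG (G : Type*) [Fintype G] : G → ℝ := fun _ => 1 / Fintype.card G

omit [Module (ZMod 2) G] in
theorem uG_law : IsLaw (uG G) := by
  have : (0 : ℝ) < Fintype.card G := card_pos'
  refine ⟨fun x => by unfold uG; positivity, ?_⟩
  unfold uG
  rw [Finset.sum_const, Finset.card_univ, nsmul_eq_mul, mul_one_div_cancel this.ne']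

omit [Module (ZMod 2) G] in
theorem De_uG : De (uG G) = 0 := by
  have : (0 : ℝ) < Fintype.card G := card_pos'
  unfold De uG
  refine Finset.sum_eq_zero (fun x _ => ?_)
  rw [mul_one_div_cancel this.ne', Real.log_one, mul_zero]

omit [Module (ZMod 2) G] in
theorem cv_uG {X : G → ℝ} (hX : IsLaw X) : cv X (uG G) = uG G := by
  funext z
  unfold cv uG
  rw [← Finset.sum_mul, hX.sum_one, one_mul]

theorem main (A B : Finset G) (hA : A.Nonempty) (hB : B.Nonempty) (J : ℕ) (hJ : 0 < J)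
    (hJ2 : min (Real.log ((Fintype.card G : ℝ) / A.card)) (Real.log ((Fintype.card G : ℝ) / B.card)) + 5
      ≤ 2 ^ J) :
    ∃ W : Submodule (ZMod 2) G,
      (Module.finrank (ZMod 2) G : ℝ) ≤ Module.finrank (ZMod 2) W
        + (2 ^ 18 * (J : ℝ) ^ 3 * (Real.log ((Fintype.card G : ℝ) / A.card) + 1)
          * (Real.log ((Fintype.card G : ℝ) / B.card) + 1) + 8) ∧
      ∀ w ∈ W, ∃ x ∈ A, ∃ y ∈ B, ∃ x' ∈ A, ∃ y' ∈ B, w = x + y + x' + y' := by
  classical
  set a := Real.log ((Fintype.card G : ℝ) / A.card) with ha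
  set b := Real.log ((Fintype.card G : ℝ) / B.card) with hb
  have hcard : ∀ C : Finset G, C.Nonempty → 0 ≤ Real.log ((Fintype.card G : ℝ) / C.card) := by
    intro C hC
    refine Real.log_nonneg ?_
    have hc : (0 : ℝ) < C.card := by exact_mod_cast hC.card_pos
    rw [one_le_div hc]
    exact_mod_cast Finset.card_le_univ C
  have ha0 : 0 ≤ a := hcard A hA
  have hb0 : 0 ≤ b := hcard B hB
  have hJR : (1 : ℝ) ≤ J := by exact_mod_cast hJ
  have hJpos : (0 : ℝ) < J := by linarith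
  set δ : ℝ := 1 / (32 * J) with hδ
  have hδpos : 0 < δ := by positivity
  have hδ2 : δ ^ 2 = 1 / (1024 * (J : ℝ) ^ 2) := by rw [hδ]; field_simp; ring
  have hJ2' : (1 : ℝ) ≤ (J : ℝ) ^ 2 := one_le_pow₀ hJR
  -- the multipliers
  have hM : ∀ t : ℝ, 0 ≤ t → ∃ M : ℕ, 0 < M ∧ 8 * t ≤ M * δ ^ 2 ∧
      (M : ℝ) ≤ 8192 * (J : ℝ) ^ 2 * (t + 1) := by
    intro t ht
    have h1 : 0 ≤ 8192 * (J : ℝ) ^ 2 * (t + 1) := by positivity
    have h2 := Nat.sub_one_lt_floor (8192 * (J : ℝ) ^ 2 * (t + 1))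
    have h3 := Nat.floor_le h1
    have h4 : 8192 * (J : ℝ) ^ 2 * t ≤ (⌊8192 * (J : ℝ) ^ 2 * (t + 1)⌋₊ : ℝ) := by nlinarith
    refine ⟨⌊8192 * (J : ℝ) ^ 2 * (t + 1)⌋₊, ?_, ?_, h3⟩
    · refine Nat.floor_pos.2 ?_
      nlinarith [mul_nonneg (sq_nonneg (J : ℝ)) ht]
    · rw [hδ2, mul_one_div, le_div_iff₀ (by positivity)]
      linarith
  obtain ⟨Ma, hMa0, hMa1, hMa2⟩ := hM a ha0
  obtain ⟨Mb, hMb0, hMb1, hMb2⟩ := hM b hb0
  set c : ℝ := 16384 * (J : ℝ) ^ 2 * (a + 1) * (b + 1) with hc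
  have hc0 : 0 ≤ c := by positivity
  have hc1 : 2 * Ma * b ≤ c := by
    calc 2 * (Ma : ℝ) * b ≤ 2 * (8192 * (J : ℝ) ^ 2 * (a + 1)) * (b + 1) := by
          refine mul_le_mul (by linarith) (by linarith) hb0 (by positivity)
      _ = c := by rw [hc]; ring
  have hc2 : 2 * Mb * a ≤ c := by
    calc 2 * (Mb : ℝ) * a ≤ 2 * (8192 * (J : ℝ) ^ 2 * (b + 1)) * (a + 1) := by
          refine mul_le_mul (by linarith) (by linarith) ha0 (by positivity)
      _ = c := by rw [hc]; ring
  set κ : ℝ := 32 * (J * c + 1) with hκ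
  have hκ0 : 0 ≤ κ := by positivity
  -- indicator of A + B
  set f : G → ℝ := fun z => if ∃ x ∈ A, ∃ y ∈ B, z = x + y then 1 else 0 with hf
  have hf01 : ∀ z, f z = 0 ∨ f z = 1 := by
    intro z; rw [hf]; simp only; split_ifs <;> simp
  have hf0 : ∀ z, 0 ≤ f z := by intro z; rcases hf01 z with h | h <;> rw [h]; norm_num
  have hf1 : ∀ z, f z ≤ 1 := by intro z; rcases hf01 z with h | h <;> rw [h]; norm_num
  have hstart : ev (uA B) (Fx (uA A) f) = 1 := by
    unfold ev Fx
    have h1 : ∀ z, uA B z * ∑ x, uA A x * f (z + x) = uA B z := by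
      intro z
      by_cases hz : z ∈ B
      · have h2 : ∑ x, uA A x * f (z + x) = ∑ x, uA A x := by
          refine Finset.sum_congr rfl (fun x _ => ?_)
          by_cases hx : x ∈ A
          · have : f (z + x) = 1 := by
              rw [hf]; simp only
              rw [if_pos ⟨x, hx, z, hz, add_comm z x⟩]
            rw [this, mul_one]
          · have : uA A x = 0 := by unfold uA; rw [if_neg hx]
            rw [this, zero_mul]
        rw [h2, (uA_law A hA).sum_one, mul_one]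
      · have : uA B z = 0 := by unfold uA; rw [if_neg hz]
        rw [this, zero_mul]
    rw [Finset.sum_congr rfl (fun z _ => h1 z)]
    exact (uA_law B hB).sum_one
  obtain ⟨X', Y', ns, hX', hY', hbd, hlen, hlaw, hfin⟩ := iter (f := f) hf0 hf1 (δ := δ) (κ := κ) (c := c)
    hδpos hκ0 (J - 1) a b Ma Mb 1 (uA A) (uA B) (uG G) c hMa0 hMb0 one_pos hMa1 hMb1 hc1 hc2
    (uA_law A hA) (uA_law B hB) uG_law (uA_bd A hA) (uA_bd B hB) (by
      rw [cv_uG (uA_law A hA), De_uG, hstart]
      have h1 := De_le (uA_law A hA) (uA_bd A hA)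
      rw [← ha] at h1
      push_cast
      have h2 : 2 * (Mb : ℝ) * De (uA A) ≤ 2 * Mb * a := mul_le_mul_of_nonneg_left h1 (by positivity)
      linarith)
  have hJ1 : J - 1 + 1 = J := by omega
  rw [hJ1, mul_one] at hlen
  have hcast : ((J - 1 : ℕ) : ℝ) = J - 1 := by
    rw [Nat.cast_sub hJ, Nat.cast_one]
  rw [hcast, hJ1] at hfin
  have hlenR : (ns.length : ℝ) = 2 ^ J := by rw [hlen]; push_cast; rfl
  have hκδ : κ * δ * J = κ / 32 := by rw [hδ]; field_simp
  have hfin2 : κ * (1 - ev (run Y' ns) (Fx X' f)) + 1 / (ns.length : ℝ) * (ns.map De).sum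
      ≤ 2 * (J * c) + 1 := by
    rw [hlenR]
    push_cast at hfin
    rw [mul_one] at hfin
    refine hfin.trans ?_
    have : (J - 1 + 1 : ℝ) * (κ * δ) = κ / 32 := by rw [← hκδ]; ring
    rw [this, hκ]
    linarith
  have hDe0 : 0 ≤ (ns.map De).sum := by
    refine List.sum_nonneg ?_
    intro x hx
    obtain ⟨ν, hν, rfl⟩ := List.mem_map.1 hx
    exact De_nonneg (hlaw ν hν)
  have havg0 : 0 ≤ 1 / (ns.length : ℝ) * (ns.map De).sum := by positivity
  have hmass : 1 - ev (run Y' ns) (Fx X' f) ≤ 1 / 16 := by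
    have h1 : κ * (1 - ev (run Y' ns) (Fx X' f)) ≤ κ * (1 / 16) := by
      have : κ * (1 / 16) = 2 * (J * c) + 2 := by rw [hκ]; ring
      rw [this]; linarith
    exact le_of_mul_le_mul_left h1 (by rw [hκ]; positivity)
  have hmass0 : 0 ≤ 1 - ev (run Y' ns) (Fx X' f) := by
    have hR := run_law hY' ns hlaw
    have : ev (run Y' ns) (Fx X' f) ≤ 1 := by
      unfold ev
      rw [← hR.sum_one]
      refine Finset.sum_le_sum (fun z _ => ?_)
      have : Fx X' f z ≤ 1 := by
        unfold Fx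
        rw [← hX'.sum_one]
        refine Finset.sum_le_sum (fun x _ => ?_)
        exact mul_le_of_le_one_right (hX'.nonneg x) (hf1 _)
      exact mul_le_of_le_one_right (hR.nonneg z) this
    linarith
  have havg : 1 / (ns.length : ℝ) * (ns.map De).sum ≤ 2 * (J * c) + 1 := by
    have := mul_nonneg hκ0 hmass0
    linarith
  have hbd2 : Bd X' (Real.exp (min a b)) ∨ Bd Y' (Real.exp (min a b)) := by
    rcases le_total a b with h | h
    · rw [min_eq_left h]
      rcases hbd with h1 | h1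
      · exact Or.inl h1.1
      · exact Or.inr h1.2
    · rw [min_eq_right h]
      rcases hbd with h1 | h1
      · exact Or.inr h1.2
      · exact Or.inl h1.1
  obtain ⟨W, hW1, hW2⟩ := final hf01 hX' hY' hlaw (by rw [hlen]; positivity) hbd2
    (by rw [hlenR]; exact hJ2) hmass
  refine ⟨W, ?_, ?_⟩
  · refine hW1.trans ?_
    have : 8 * (1 / (ns.length : ℝ) * (ns.map De).sum) ≤ 8 * (2 * (J * c) + 1) := by linarith
    have h2 : 8 * (2 * (J * c) + 1) = 2 ^ 18 * (J : ℝ) ^ 3 * (a + 1) * (b + 1) + 8 := by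
      rw [hc]; ring
    linarith
  · intro w hw
    obtain ⟨u, v, hu, hv, huv⟩ := hW2 w hw
    have hmem : ∀ z, f z = 1 → ∃ x ∈ A, ∃ y ∈ B, z = x + y := by
      intro z hz
      by_contra hcon
      rw [hf] at hz
      simp only at hz
      rw [if_neg hcon] at hz
      norm_num at hz
    obtain ⟨x, hx, y, hy, h1⟩ := hmem u hu
    obtain ⟨x', hx', y', hy', h2⟩ := hmem v hv
    exact ⟨x, hx, y, hy, x', hx', y', hy', by rw [huv, h1, h2]; abel⟩

end Pool.TenA
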