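import Mathlib
import Pool.Agent.TenA.Main

set_option autoImplicit false

namespace Pool.TenA

open Finset

theorem logb_bounds {n : ℕ} (A : Finset (Fin n → ZMod 2)) (hA : A.Nonempty) :
    0 ≤ Real.log ((Fintype.card (Fin n → ZMod 2) : ℝ) / A.card) ∧
    Real.log ((Fintype.card (Fin n → ZMod 2) : ℝ) / A.card)
      ≤ Real.logb 2 ((2 : ℝ) ^ n / (A.card : ℝ)) := by
  have hc : (0 : ℝ) < A.card := by exact_mod_cast hA.card_pos
  have hcard : (Fintype.card (Fin n → ZMod 2) : ℝ) = 2 ^ n := by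
    rw [Fintype.card_fun, ZMod.card, Fintype.card_fin]; push_cast; rfl
  have hle : (A.card : ℝ) ≤ 2 ^ n := by
    rw [← hcard]; exact_mod_cast Finset.card_le_univ A
  rw [hcard]
  have h0 : 0 ≤ Real.log ((2 : ℝ) ^ n / A.card) :=
    Real.log_nonneg (by rw [one_le_div hc]; exact hle)
  refine ⟨h0, ?_⟩
  unfold Real.logb
  rw [le_div_iff₀ (Real.log_pos one_lt_two)]
  have h1 : Real.log 2 ≤ 1 := by
    have := Real.log_two_lt_d9; linarith
  calc _ ≤ Real.log ((2 : ℝ) ^ n / A.card) * 1 := mul_le_mul_of_nonneg_left h1 h0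
    _ = _ := mul_one _

theorem log2_version {n : ℕ} (A B : Finset (Fin n → ZMod 2)) (hA : A.Nonempty) (hB : B.Nonempty) :
    ∃ V : Submodule (ZMod 2) (Fin n → ZMod 2),
      (n : ℝ) - 2 ^ 25 * (1 + Real.logb 2 ((2 : ℝ) ^ n / (A.card : ℝ)))
        * (1 + Real.logb 2 ((2 : ℝ) ^ n / (B.card : ℝ)))
        * (1 + Real.logb 2 (1 + min (Real.logb 2 ((2 : ℝ) ^ n / (A.card : ℝ)))
            (Real.logb 2 ((2 : ℝ) ^ n / (B.card : ℝ))))) ^ 3
        ≤ (Module.finrank (ZMod 2) V : ℝ) ∧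
      ∀ v ∈ V, ∃ x ∈ A, ∃ y ∈ B, ∃ x' ∈ A, ∃ y' ∈ B, x + y + x' + y' = v := by
  obtain ⟨ha0, ha1⟩ := logb_bounds A hA
  obtain ⟨hb0, hb1⟩ := logb_bounds B hB
  set a := Real.log ((Fintype.card (Fin n → ZMod 2) : ℝ) / A.card) with ha
  set b := Real.log ((Fintype.card (Fin n → ZMod 2) : ℝ) / B.card) with hb
  set a2 := Real.logb 2 ((2 : ℝ) ^ n / (A.card : ℝ)) with ha2
  set b2 := Real.logb 2 ((2 : ℝ) ^ n / (B.card : ℝ)) with hb2
  set u := min a2 b2 with hu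
  have hu0 : 0 ≤ u := le_min (ha0.trans ha1) (hb0.trans hb1)
  have hmin : min a b ≤ u := min_le_min ha1 hb1
  have hmin0 : 0 ≤ min a b := le_min ha0 hb0
  set J := Nat.clog 2 ⌈min a b + 5⌉₊ with hJ
  have hceil : min a b + 5 ≤ (⌈min a b + 5⌉₊ : ℝ) := Nat.le_ceil _
  have hceil1 : 1 < ⌈min a b + 5⌉₊ := by
    rw [Nat.lt_ceil]; push_cast; linarith
  have hJpos : 0 < J := Nat.clog_pos (by norm_num) hceil1
  have hJ2 : min a b + 5 ≤ (2 : ℝ) ^ J := by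
    refine hceil.trans ?_
    exact_mod_cast Nat.le_pow_clog (by norm_num) _
  have hJup : (J : ℝ) ≤ 4 * (1 + Real.logb 2 (1 + u)) := by
    have h1 : 2 ^ (J - 1) < ⌈min a b + 5⌉₊ := Nat.pow_pred_clog_lt_self (by norm_num) hceil1
    have h2 : ((2 : ℝ) ^ (J - 1)) < min a b + 5 + 1 := by
      have h3 : ((2 : ℝ) ^ (J - 1)) < (⌈min a b + 5⌉₊ : ℝ) := by exact_mod_cast h1
      exact h3.trans (Nat.ceil_lt_add_one (by linarith))
    have h4 : (2 : ℝ) ^ (J - 1) ≤ 2 ^ 3 * (1 + u) := by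
      have : min a b + 5 + 1 ≤ 2 ^ 3 * (1 + u) := by linarith
      linarith
    have h5 : ((J - 1 : ℕ) : ℝ) ≤ Real.logb 2 (2 ^ 3 * (1 + u)) := by
      rw [Real.le_logb_iff_rpow_le one_lt_two (by positivity), Real.rpow_natCast]
      exact h4
    have h6 : Real.logb 2 (2 ^ 3 * (1 + u)) = 3 + Real.logb 2 (1 + u) := by
      rw [Real.logb_mul (by norm_num) (by positivity), Real.logb_pow, Real.logb_self_eq_one one_lt_two]
      norm_num
    have h7 : ((J - 1 : ℕ) : ℝ) = J - 1 := by rw [Nat.cast_sub hJpos, Nat.cast_one]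
    have h8 : 0 ≤ Real.logb 2 (1 + u) := Real.logb_nonneg one_lt_two (by linarith)
    rw [h7, h6] at h5
    linarith
  obtain ⟨V, hV1, hV2⟩ := main A B hA hB J hJpos hJ2
  refine ⟨V, ?_, fun v hv => ?_⟩
  · rw [Module.finrank_fin_fun] at hV1
    have hJR : (0 : ℝ) ≤ J := Nat.cast_nonneg _
    have h8 : 0 ≤ Real.logb 2 (1 + u) := Real.logb_nonneg one_lt_two (by linarith)
    set P := (1 + Real.logb 2 (1 + u)) with hP
    have hP1 : 1 ≤ P := by rw [hP]; linarith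
    have h9 : (J : ℝ) ^ 3 ≤ 64 * P ^ 3 := by
      calc (J : ℝ) ^ 3 ≤ (4 * P) ^ 3 := pow_le_pow_left₀ hJR hJup 3
        _ = _ := by ring
    have h10 : 2 ^ 18 * (J : ℝ) ^ 3 * (a + 1) * (b + 1) ≤ 2 ^ 24 * (1 + a2) * (1 + b2) * P ^ 3 := by
      have e1 : 2 ^ 18 * (J : ℝ) ^ 3 ≤ 2 ^ 24 * P ^ 3 := by linarith
      have e2 : 2 ^ 18 * (J : ℝ) ^ 3 * (a + 1) ≤ 2 ^ 24 * P ^ 3 * (1 + a2) :=
        mul_le_mul e1 (by linarith) (by linarith) (by positivity)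
      have e3 : 2 ^ 18 * (J : ℝ) ^ 3 * (a + 1) * (b + 1) ≤ 2 ^ 24 * P ^ 3 * (1 + a2) * (1 + b2) :=
        mul_le_mul e2 (by linarith) (by linarith) (by
          have : 0 ≤ 1 + a2 := by linarith
          positivity)
      linarith
    have h11 : (8 : ℝ) ≤ 2 ^ 24 * (1 + a2) * (1 + b2) * P ^ 3 := by
      have e1 : (1 : ℝ) ≤ P ^ 3 := one_le_pow₀ hP1
      have e2 : (1 : ℝ) ≤ 1 + a2 := by linarith
      have e3 : (1 : ℝ) ≤ 1 + b2 := by linarith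
      have e4 : (1 : ℝ) ≤ (1 + a2) * (1 + b2) := one_le_mul_of_one_le_of_one_le e2 e3
      have e5 : (1 : ℝ) ≤ (1 + a2) * (1 + b2) * P ^ 3 := one_le_mul_of_one_le_of_one_le e4 e1
      nlinarith
    linarith
  · obtain ⟨x, hx, y, hy, x', hx', y', hy', h⟩ := hV2 v hv
    exact ⟨x, hx, y, hy, x', hx', y', hy', h.symm⟩

end Pool.TenA
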