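import Mathlib
import Pool.Agent.TenA.Log2

set_option autoImplicit false

/-! Relative version: sets of small doubling. A subspace `N` maximal with `N ∩ 12A = {0}` satisfies
`G = N + 12A`, so the quotient `G/N` has at most `K^12 |A|` elements and is Freiman isomorphic to `G` near `A`. -/

namespace Pool.TenA

open Finset
open scoped Pointwise

variable {G : Type*} [Fintype G] [AddCommGroup G] [Module (ZMod 2) G] [DecidableEq G]

omit [Fintype G] [DecidableEq G] in
theorem add_self2 (z : G) : z + z = 0 := by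
  have h : (2 : ZMod 2) • z = 0 := by
    have : (2 : ZMod 2) = 0 := by decide
    rw [this, zero_smul]
  rwa [two_smul] at h

omit [Fintype G] in
theorem nsmul_mono2 (A : Finset G) (hA : A.Nonempty) (k : ℕ) : k • A ⊆ (k + 2) • A := by
  obtain ⟨z, hz⟩ := hA
  intro x hx
  rw [add_nsmul, Finset.mem_add]
  refine ⟨x, hx, 0, ?_, add_zero x⟩
  rw [two_nsmul, Finset.mem_add]
  exact ⟨z, hz, z, hz, add_self2 z⟩

omit [Fintype G] in
theorem zero_mem_12 (A : Finset G) (hA : A.Nonempty) : (0 : G) ∈ 12 • A := by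
  have h0 : (0 : G) ∈ 0 • A := by simp
  have := nsmul_mono2 A hA
  exact this 10 (this 8 (this 6 (this 4 (this 2 (this 0 h0)))))

omit [Fintype G] in
theorem two_sub_12 (A : Finset G) (hA : A.Nonempty) : 2 • A ⊆ 12 • A := by
  have := nsmul_mono2 A hA
  exact ((((this 2).trans (this 4)).trans (this 6)).trans (this 8)).trans (this 10)

theorem z2_cases : ∀ c : ZMod 2, c = 0 ∨ c = 1 := by decide

theorem exists_N (A : Finset G) (hA : A.Nonempty) :
    ∃ N : Submodule (ZMod 2) G, (∀ x ∈ N, x ∈ 12 • A → x = 0) ∧ ∀ x : G, ∃ s ∈ 12 • A, x + s ∈ N := by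
  classical
  have hfin : {N : Submodule (ZMod 2) G | ∀ x ∈ N, x ∈ 12 • A → x = 0}.Finite := by
    have : Finite (Submodule (ZMod 2) G) :=
      Finite.of_injective (fun N : Submodule (ZMod 2) G => (N : Set G)) SetLike.coe_injective
    exact Set.toFinite _
  have hne : {N : Submodule (ZMod 2) G | ∀ x ∈ N, x ∈ 12 • A → x = 0}.Nonempty := by
    refine ⟨⊥, ?_⟩
    intro x hx _
    exact (Submodule.mem_bot (ZMod 2)).1 hx
  obtain ⟨N, hN, hmax⟩ := hfin.exists_maximal hne
  refine ⟨N, hN, fun x => ?_⟩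
  by_cases hx : x ∈ N
  · exact ⟨0, zero_mem_12 A hA, by rwa [add_zero]⟩
  · by_contra hcon
    push Not at hcon
    have hgood : (N ⊔ Submodule.span (ZMod 2) {x}) ∈
        {N : Submodule (ZMod 2) G | ∀ x ∈ N, x ∈ 12 • A → x = 0} := by
      intro y hy hy12
      rw [Submodule.mem_sup] at hy
      obtain ⟨m, hm, v, hv, rfl⟩ := hy
      rw [Submodule.mem_span_singleton] at hv
      obtain ⟨c, rfl⟩ := hv
      have hc : c = 0 ∨ c = 1 := z2_cases c
      rcases hc with rfl | rfl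
      · rw [zero_smul, add_zero] at hy12 ⊢
        exact hN m hm hy12
      · exfalso
        refine hcon _ hy12 ?_
        rw [one_smul]
        have : x + (m + x) = m + (x + x) := by abel
        rw [this, add_self2, add_zero]
        exact hm
    have hle := hmax hgood le_sup_left
    exact hx (hle (Submodule.mem_sup_right (Submodule.mem_span_singleton_self x)))

omit [Fintype G] in
theorem card_quot_le (A : Finset G) (N : Submodule (ZMod 2) G)
    (hN : ∀ x : G, ∃ s ∈ 12 • A, x + s ∈ N) [Fintype (G ⧸ N)] :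
    Fintype.card (G ⧸ N) ≤ (12 • A).card := by
  classical
  rw [← Finset.card_univ]
  refine Finset.card_le_card_of_surjOn (s := 12 • A) (t := Finset.univ) N.mkQ ?_
  intro q _
  obtain ⟨x, rfl⟩ := N.mkQ_surjective q
  obtain ⟨s, hs, hxs⟩ := hN x
  refine ⟨s, hs, ?_⟩
  rw [Submodule.mkQ_apply, Submodule.mkQ_apply, Submodule.Quotient.eq]
  have : s - x = x + s := by
    rw [sub_eq_add_neg, add_comm]
    congr 1
    exact neg_eq_of_add_eq_zero_left (add_self2 x)
  rw [this]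
  exact hxs

omit [Fintype G] [Module (ZMod 2) G] in
theorem card_12_le (A : Finset G) (hA : A.Nonempty) :
    ((12 • A).card : ℝ) ≤ (((A + A).card : ℝ) / A.card) ^ 12 * A.card := by
  have h := Finset.pluennecke_ruzsa_inequality_nsmul_add hA A 12
  have h2 : (((12 • A).card : NNRat) : ℝ) ≤
      (((((A + A).card : NNRat) / (A.card : NNRat)) ^ 12 * (A.card : NNRat) : NNRat) : ℝ) := by
    exact_mod_cast h
  push_cast at h2
  exact h2

theorem rel (A : Finset G) (hA : A.Nonempty) (J : ℕ) (hJ : 0 < J)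
    (hJ2 : 12 * Real.log (((A + A).card : ℝ) / A.card) + 5 ≤ 2 ^ J) :
    ∃ V : Submodule (ZMod 2) G,
      Real.logb 2 A.card ≤ Module.finrank (ZMod 2) V
        + (2 ^ 18 * (J : ℝ) ^ 3 * (12 * Real.log (((A + A).card : ℝ) / A.card) + 1) ^ 2 + 8) ∧
      ∀ w ∈ V, ∃ x ∈ A, ∃ y ∈ A, ∃ x' ∈ A, ∃ y' ∈ A, w = x + y + x' + y' := by
  classical
  obtain ⟨N, hN0, hN⟩ := exists_N A hA
  have : Finite (G ⧸ N) := Finite.of_surjective N.mkQ N.mkQ_surjective
  have : Fintype (G ⧸ N) := Fintype.ofFinite _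
  have hc : (0 : ℝ) < A.card := by exact_mod_cast hA.card_pos
  have hcq : (0 : ℝ) < Fintype.card (G ⧸ N) := by
    exact_mod_cast Fintype.card_pos
  have hinj : Set.InjOn N.mkQ (A : Set G) := by
    intro x hx y hy hxy
    rw [Submodule.mkQ_apply, Submodule.mkQ_apply, Submodule.Quotient.eq] at hxy
    have e : x - y = x + y := by
      rw [sub_eq_add_neg]
      congr 1
      exact neg_eq_of_add_eq_zero_left (add_self2 y)
    rw [e] at hxy
    have h12 : x + y ∈ 12 • A := by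
      apply two_sub_12 A hA
      rw [two_nsmul, Finset.mem_add]
      exact ⟨x, hx, y, hy, rfl⟩
    have h0 := hN0 _ hxy h12
    rw [← e, sub_eq_zero] at h0
    exact h0
  set A' : Finset (G ⧸ N) := A.image N.mkQ with hA'
  have hcA' : A'.card = A.card := Finset.card_image_of_injOn hinj
  have hA'ne : A'.Nonempty := hA.image _
  have hlog : Real.log ((Fintype.card (G ⧸ N) : ℝ) / A'.card)
      ≤ 12 * Real.log (((A + A).card : ℝ) / A.card) := by
    rw [hcA']
    have h1 : ((Fintype.card (G ⧸ N) : ℝ)) ≤ (12 • A).card := by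
      exact_mod_cast card_quot_le A N hN
    have h2 := card_12_le A hA
    have h3 : (Fintype.card (G ⧸ N) : ℝ) / A.card ≤ (((A + A).card : ℝ) / A.card) ^ 12 := by
      rw [div_le_iff₀ hc]
      exact h1.trans h2
    have h4 := Real.log_le_log (div_pos hcq hc) h3
    rw [Real.log_pow] at h4
    exact_mod_cast h4
  obtain ⟨W, hW1, hW2⟩ := main A' A' hA'ne hA'ne J hJ (by
    rw [min_self]
    linarith)
  -- the lift
  have hlift : ∀ w : W, ∃ g : G, g ∈ 4 • A ∧ N.mkQ g = (w : G ⧸ N) := by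
    rintro ⟨w, hw⟩
    obtain ⟨x, hx, y, hy, x', hx', y', hy', h⟩ := hW2 w hw
    rw [hA', Finset.mem_image] at hx hy hx' hy'
    obtain ⟨x, hx, rfl⟩ := hx
    obtain ⟨y, hy, rfl⟩ := hy
    obtain ⟨x', hx', rfl⟩ := hx'
    obtain ⟨y', hy', rfl⟩ := hy'
    refine ⟨x + y + x' + y', ?_, ?_⟩
    · have e : (4 : ℕ) • A = A + A + A + A := by
        rw [show (4 : ℕ) = 2 + 1 + 1 by norm_num, add_nsmul, add_nsmul, two_nsmul, one_nsmul]
      rw [e]
      exact Finset.add_mem_add (Finset.add_mem_add (Finset.add_mem_add hx hy) hx') hy'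
    · rw [map_add, map_add, map_add]
      exact h.symm
  choose ψ hψ1 hψ2 using hlift
  have hψadd : ∀ v w : W, ψ (v + w) = ψ v + ψ w := by
    intro v w
    have hin : ψ v + ψ w + ψ (v + w) ∈ 12 • A := by
      have e : (12 : ℕ) • A = 4 • A + 4 • A + 4 • A := by
        rw [← add_nsmul, ← add_nsmul]
      rw [e]
      exact Finset.add_mem_add (Finset.add_mem_add (hψ1 v) (hψ1 w)) (hψ1 (v + w))
    have hker : ψ v + ψ w + ψ (v + w) ∈ N := by
      have hz : N.mkQ (ψ v + ψ w + ψ (v + w)) = 0 := by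
        rw [map_add, map_add, hψ2, hψ2, hψ2]
        push_cast
        exact add_self2 _
      rwa [Submodule.mkQ_apply, Submodule.Quotient.mk_eq_zero] at hz
    have h0 := hN0 _ hker hin
    have h1 : ψ v + ψ w = -ψ (v + w) := eq_neg_of_add_eq_zero_left h0
    have h2 : -ψ (v + w) = ψ (v + w) := neg_eq_of_add_eq_zero_left (add_self2 _)
    rw [h1, h2]
  have hψsmul : ∀ (c : ZMod 2) (v : W), ψ (c • v) = c • ψ v := by
    have h00 : ψ 0 = 0 := by
      have := hψadd 0 0
      rw [add_zero] at this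
      exact left_eq_add.1 this
    intro c v
    rcases z2_cases c with rfl | rfl
    · rw [zero_smul, zero_smul]; exact h00
    · rw [one_smul, one_smul]
  let ψL : W →ₗ[ZMod 2] G :=
    { toFun := ψ, map_add' := hψadd, map_smul' := hψsmul }
  have hψinj : Function.Injective ψL := by
    intro v w hvw
    have h1 : N.mkQ (ψ v) = N.mkQ (ψ w) := congrArg N.mkQ hvw
    rw [hψ2, hψ2] at h1
    exact Subtype.ext h1
  refine ⟨LinearMap.range ψL, ?_, ?_⟩
  · rw [LinearMap.finrank_range_of_inj hψinj]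
    have hcardQ : (Fintype.card (G ⧸ N) : ℝ) = 2 ^ (Module.finrank (ZMod 2) (G ⧸ N)) := by
      have h := Module.card_eq_pow_finrank (K := ZMod 2) (V := G ⧸ N)
      rw [ZMod.card] at h
      exact_mod_cast h
    have hAle : (A.card : ℝ) ≤ Fintype.card (G ⧸ N) := by
      rw [← hcA']
      exact_mod_cast Finset.card_le_univ A'
    have h1 : Real.logb 2 A.card ≤ Module.finrank (ZMod 2) (G ⧸ N) := by
      rw [Real.logb_le_iff_le_rpow one_lt_two hc, Real.rpow_natCast, ← hcardQ]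
      exact hAle
    have hnn : 0 ≤ Real.log ((Fintype.card (G ⧸ N) : ℝ) / A'.card) := by
      refine Real.log_nonneg ?_
      rw [hcA', one_le_div hc]
      exact hAle
    have h2 : 2 ^ 18 * (J : ℝ) ^ 3 * (Real.log ((Fintype.card (G ⧸ N) : ℝ) / A'.card) + 1)
          * (Real.log ((Fintype.card (G ⧸ N) : ℝ) / A'.card) + 1)
        ≤ 2 ^ 18 * (J : ℝ) ^ 3 * (12 * Real.log (((A + A).card : ℝ) / A.card) + 1) ^ 2 := by
      rw [sq, ← mul_assoc]
      have hJ0 : (0 : ℝ) ≤ J := Nat.cast_nonneg _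
      refine mul_le_mul (mul_le_mul_of_nonneg_left (by linarith) (by positivity)) (by linarith)
        (by linarith) ?_
      have : 0 ≤ 12 * Real.log (((A + A).card : ℝ) / A.card) + 1 := by linarith
      positivity
    linarith
  · rintro _ ⟨v, rfl⟩
    have h4 : ψ v ∈ A + A + A + A := by
      have e : (4 : ℕ) • A = A + A + A + A := by
        rw [show (4 : ℕ) = 2 + 1 + 1 by norm_num, add_nsmul, add_nsmul, two_nsmul, one_nsmul]
      rw [← e]
      exact hψ1 v
    rw [Finset.mem_add] at h4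
    obtain ⟨u, hu, y', hy', h⟩ := h4
    rw [Finset.mem_add] at hu
    obtain ⟨t, ht, x', hx', rfl⟩ := hu
    rw [Finset.mem_add] at ht
    obtain ⟨x, hx, y, hy, rfl⟩ := ht
    exact ⟨x, hx, y, hy, x', hx', y', hy', h.symm⟩

/-- a set `A` with `|A+A| = 2^g |A|`: `4A` contains a subspace of dimension
`log_2 |A| - 2^32 (1+g)^2 (1+log_2(1+g))^3` -/
theorem rel_log2 (A : Finset G) (hA : A.Nonempty) :
    ∃ V : Submodule (ZMod 2) G,
      Real.logb 2 A.card - 2 ^ 32 * (1 + Real.logb 2 (((A + A).card : ℝ) / A.card)) ^ 2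
        * (1 + Real.logb 2 (1 + Real.logb 2 (((A + A).card : ℝ) / A.card))) ^ 3
        ≤ (Module.finrank (ZMod 2) V : ℝ) ∧
      ∀ v ∈ V, ∃ x ∈ A, ∃ y ∈ A, ∃ x' ∈ A, ∃ y' ∈ A, x + y + x' + y' = v := by
  have hc : (0 : ℝ) < A.card := by exact_mod_cast hA.card_pos
  have hK1 : 1 ≤ ((A + A).card : ℝ) / A.card := by
    rw [one_le_div hc]
    exact_mod_cast Finset.card_le_card_add_left hA
  set K : ℝ := ((A + A).card : ℝ) / A.card with hK
  set g := Real.logb 2 K with hg
  have hg0 : 0 ≤ g := Real.logb_nonneg one_lt_two hK1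
  have hlogK : Real.log K = g * Real.log 2 := by
    rw [hg, Real.logb, div_mul_cancel₀]
    exact (Real.log_pos one_lt_two).ne'
  have hl2 : Real.log 2 ≤ 7 / 10 := by
    have := Real.log_two_lt_d9; linarith
  have hl20 : 0 ≤ Real.log 2 := (Real.log_pos one_lt_two).le
  have h12 : 12 * Real.log K ≤ 84 / 10 * g := by
    rw [hlogK]; nlinarith
  have h120 : 0 ≤ 12 * Real.log K := by
    rw [hlogK]; positivity
  set u := 12 * Real.log K with hu
  set J := Nat.clog 2 ⌈u + 5⌉₊ with hJ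
  have hceil : u + 5 ≤ (⌈u + 5⌉₊ : ℝ) := Nat.le_ceil _
  have hceil1 : 1 < ⌈u + 5⌉₊ := by
    rw [Nat.lt_ceil]; push_cast; linarith
  have hJpos : 0 < J := Nat.clog_pos (by norm_num) hceil1
  have hJ2 : u + 5 ≤ (2 : ℝ) ^ J := by
    refine hceil.trans ?_
    exact_mod_cast Nat.le_pow_clog (by norm_num) _
  have h8 : 0 ≤ Real.logb 2 (1 + g) := Real.logb_nonneg one_lt_two (by linarith)
  have hJup : (J : ℝ) ≤ 5 * (1 + Real.logb 2 (1 + g)) := by
    have h1 : 2 ^ (J - 1) < ⌈u + 5⌉₊ := Nat.pow_pred_clog_lt_self (by norm_num) hceil1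
    have h2 : ((2 : ℝ) ^ (J - 1)) < u + 5 + 1 := by
      have h3 : ((2 : ℝ) ^ (J - 1)) < (⌈u + 5⌉₊ : ℝ) := by exact_mod_cast h1
      exact h3.trans (Nat.ceil_lt_add_one (by linarith))
    have h4 : (2 : ℝ) ^ (J - 1) ≤ 2 ^ 4 * (1 + g) := by
      have : u + 5 + 1 ≤ 2 ^ 4 * (1 + g) := by linarith
      linarith
    have h5 : ((J - 1 : ℕ) : ℝ) ≤ Real.logb 2 (2 ^ 4 * (1 + g)) := by
      rw [Real.le_logb_iff_rpow_le one_lt_two (by positivity), Real.rpow_natCast]
      exact h4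
    have h6 : Real.logb 2 (2 ^ 4 * (1 + g)) = 4 + Real.logb 2 (1 + g) := by
      rw [Real.logb_mul (by norm_num) (by positivity), Real.logb_pow, Real.logb_self_eq_one one_lt_two]
      norm_num
    have h7 : ((J - 1 : ℕ) : ℝ) = J - 1 := by rw [Nat.cast_sub hJpos, Nat.cast_one]
    rw [h7, h6] at h5
    linarith
  obtain ⟨V, hV1, hV2⟩ := rel A hA J hJpos hJ2
  refine ⟨V, ?_, fun v hv => ?_⟩
  · have hJR : (0 : ℝ) ≤ J := Nat.cast_nonneg _
    set P := (1 + Real.logb 2 (1 + g)) with hP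
    have hP1 : 1 ≤ P := by rw [hP]; linarith
    have h9 : (J : ℝ) ^ 3 ≤ 125 * P ^ 3 := by
      calc (J : ℝ) ^ 3 ≤ (5 * P) ^ 3 := pow_le_pow_left₀ hJR hJup 3
        _ = _ := by ring
    have h10 : (u + 1) ^ 2 ≤ 71 * (1 + g) ^ 2 := by
      calc (u + 1) ^ 2 ≤ (84 / 10 * (1 + g)) ^ 2 := pow_le_pow_left₀ (by linarith) (by linarith) 2
        _ = (84 / 10) ^ 2 * (1 + g) ^ 2 := by ring
        _ ≤ 71 * (1 + g) ^ 2 := mul_le_mul_of_nonneg_right (by norm_num) (by positivity)
    have h11 : 2 ^ 18 * (J : ℝ) ^ 3 * (u + 1) ^ 2 ≤ 2 ^ 18 * (125 * P ^ 3) * (71 * (1 + g) ^ 2) := by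
      refine mul_le_mul (mul_le_mul_of_nonneg_left h9 (by norm_num)) h10 (by positivity) ?_
      positivity
    have h12 : (1 : ℝ) ≤ P ^ 3 * (1 + g) ^ 2 := by
      refine one_le_mul_of_one_le_of_one_le (one_le_pow₀ hP1) (one_le_pow₀ (by linarith))
    have h13 : 2 ^ 18 * (125 * P ^ 3) * (71 * (1 + g) ^ 2) + 8 ≤ 2 ^ 32 * (1 + g) ^ 2 * P ^ 3 := by
      have e1 : 2 ^ 18 * (125 * P ^ 3) * (71 * (1 + g) ^ 2) = 2 ^ 18 * 8875 * (P ^ 3 * (1 + g) ^ 2) := by
        ring
      have e2 : 2 ^ 32 * (1 + g) ^ 2 * P ^ 3 = 2 ^ 18 * 16384 * (P ^ 3 * (1 + g) ^ 2) := by ring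
      rw [e1, e2]
      linarith
    have h14 : 2 ^ 18 * (J : ℝ) ^ 3 * (12 * Real.log K + 1) ^ 2 = 2 ^ 18 * (J : ℝ) ^ 3 * (u + 1) ^ 2 := by
      rw [hu]
    rw [h14] at hV1
    linarith
  · obtain ⟨x, hx, y, hy, x', hx', y', hy', h⟩ := hV2 v hv
    exact ⟨x, hx, y, hy, x', hx', y', hy', h.symm⟩

end Pool.TenA
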